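import Mathlib

set_option autoImplicit false

open MeasureTheory Filter Topology
open scoped ENNReal

namespace Pool.Agent.N796.Berg

/-- Coefficients of the binomial series from a two-term recursion. -/
theorem coeff_eq {β : ℝ} (hβ : 0 < β) (N : ℕ → ℝ) (hN0 : 0 < N 0)
    (hrec : ∀ k : ℕ, ((k : ℝ) + β) * N (k + 1) = (k + 1) * N k) (k : ℕ) :
    ((N 0 / N k : ℝ) : ℂ) = Ring.choose ((β : ℂ) + k - 1) k := by
  have hNpos : ∀ k, 0 < N k := by
    intro k
    induction k with
    | zero => exact hN0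
    | succ k ih =>
      have h1 := hrec k
      have h2 : 0 < ((k : ℝ) + 1) * N k := by positivity
      rw [← h1] at h2
      exact pos_of_mul_pos_right h2 (by positivity)
  have key : ∀ k : ℕ, ((N 0 / N k : ℝ) : ℂ) * (k.factorial : ℂ)
      = (ascPochhammer ℂ k).eval (β : ℂ) := by
    intro k
    induction k with
    | zero =>
      simp [div_self hN0.ne']
    | succ k ih =>
      rw [ascPochhammer_succ_eval, ← ih, Nat.factorial_succ]
      have h1 := hrec k
      have h2 : N 0 / N (k + 1) * ((k : ℝ) + 1) = N 0 / N k * (β + k) := by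
        have h3 := (hNpos k).ne'
        have h4 := (hNpos (k + 1)).ne'
        rw [div_mul_eq_mul_div, div_mul_eq_mul_div, div_eq_div_iff h4 h3]
        calc N 0 * (k + 1) * N k = N 0 * ((k + 1) * N k) := by ring
          _ = N 0 * (((k : ℝ) + β) * N (k + 1)) := by rw [h1]
          _ = N 0 * (β + k) * N (k + 1) := by ring
      have h5 : ((N 0 / N (k + 1) : ℝ) : ℂ) * ((k : ℂ) + 1) = ((N 0 / N k : ℝ) : ℂ) * (β + k) := by
        have := congrArg (fun x : ℝ => (x : ℂ)) h2
        push_cast at this ⊢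
        exact this
      push_cast at h5 ⊢
      linear_combination (k.factorial : ℂ) * h5
  have h1 : Ring.choose ((β : ℂ) + k - 1) k = Ring.multichoose (β : ℂ) k :=
    (Ring.multichoose_eq _ _).symm
  have h2 := Ring.factorial_nsmul_multichoose_eq_ascPochhammer (β : ℂ) k
  rw [Polynomial.ascPochhammer_smeval_eq_eval, ← key k, nsmul_eq_mul] at h2
  rw [h1]
  have h3 : (k.factorial : ℂ) ≠ 0 := by exact_mod_cast k.factorial_ne_zero
  apply mul_left_cancel₀ h3
  rw [h2]
  ring

theorem hasSum_kernel {β : ℝ} (hβ : 0 < β) (N : ℕ → ℝ) (hN0 : 0 < N 0)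
    (hrec : ∀ k : ℕ, ((k : ℝ) + β) * N (k + 1) = (k + 1) * N k) {x : ℂ} (hx : ‖x‖ < 1) :
    HasSum (fun k : ℕ => ((N 0 / N k : ℝ) : ℂ) * x ^ k) (1 / (1 - x) ^ (β : ℂ)) := by
  have h := Complex.one_div_one_sub_cpow_hasFPowerSeriesOnBall_zero (β : ℂ)
  have h2 := h.hasSum (y := x) (by
    simp only [Metric.mem_eball, edist_zero_right]
    rw [← ofReal_norm, ← ENNReal.ofReal_one]
    exact (ENNReal.ofReal_lt_ofReal_iff one_pos).2 hx)
  simp only [zero_add, FormalMultilinearSeries.ofScalars_apply_eq] at h2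
  have h3 : (fun k : ℕ => ((N 0 / N k : ℝ) : ℂ) * x ^ k)
      = fun k : ℕ => Ring.choose ((β : ℂ) + k - 1) k • x ^ k := by
    funext k
    rw [coeff_eq hβ N hN0 hrec k, smul_eq_mul]
  rw [h3]
  exact h2

end Pool.Agent.N796.Berg
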