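import Pool.Agent.N796.BergA

set_option autoImplicit false

open MeasureTheory Filter Topology
open scoped ENNReal ComplexConjugate

namespace Pool.Agent.N796.Berg

/-- Abstract data: a finite measure carried by the unit disc with orthogonal monomials whose
squared norms satisfy the two-term recursion of the weighted Bergman space. -/
structure Data (μ : Measure ℂ) (β : ℝ) : Prop where
  fin : IsFiniteMeasure μ
  ball : ∀ᵐ z ∂μ, ‖z‖ < 1
  ort : ∀ j k : ℕ, j ≠ k → ∫ z, conj (z ^ j) * z ^ k ∂μ = 0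
  pos : 0 < ∫ z : ℂ, ‖z‖ ^ (2 * 0) ∂μ
  recur : ∀ k : ℕ, ((k : ℝ) + β) * (∫ z : ℂ, ‖z‖ ^ (2 * (k + 1)) ∂μ)
    = (k + 1) * ∫ z : ℂ, ‖z‖ ^ (2 * k) ∂μ
  big : 6 < β

variable {μ : Measure ℂ} {β : ℝ}

theorem memLp_pow (D : Data μ β) (k : ℕ) : MemLp (fun z : ℂ => z ^ k) 2 μ := by
  haveI := D.fin
  apply MemLp.of_bound (C := 1)
  · exact (continuous_pow k).aestronglyMeasurable
  · filter_upwards [D.ball] with z hz
    rw [norm_pow]
    exact pow_le_one₀ (norm_nonneg _) hz.le

/-- The monomials in `L²`. -/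
noncomputable def e (D : Data μ β) (k : ℕ) : Lp ℂ 2 μ := (memLp_pow D k).toLp _

/-- Their squared norms. -/
noncomputable def N (_ : Data μ β) (k : ℕ) : ℝ := ∫ z : ℂ, ‖z‖ ^ (2 * k) ∂μ

theorem e_ae (D : Data μ β) (k : ℕ) : (e D k : ℂ → ℂ) =ᵐ[μ] fun z => z ^ k :=
  MemLp.coeFn_toLp _

theorem inner_e (D : Data μ β) (j k : ℕ) :
    inner ℂ (e D j) (e D k) = if j = k then ((N D k : ℝ) : ℂ) else 0 := by
  rw [MeasureTheory.L2.inner_def]
  have h1 : (∫ z, inner ℂ ((e D j : ℂ → ℂ) z) ((e D k : ℂ → ℂ) z) ∂μ)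
      = ∫ z, conj (z ^ j) * z ^ k ∂μ := by
    apply integral_congr_ae
    filter_upwards [e_ae D j, e_ae D k] with z hj hk
    rw [hj, hk]
    simp [RCLike.inner_apply, mul_comm]
  rw [h1]
  split_ifs with h
  · subst h
    unfold N
    have h2 := integral_ofReal (𝕜 := ℂ) (μ := μ) (f := fun z : ℂ => ‖z‖ ^ (2 * j))
    refine Eq.trans ?_ h2
    congr 1
    ext z
    show conj (z ^ j) * z ^ j = ((‖z‖ ^ (2 * j) : ℝ) : ℂ)
    rw [Complex.conj_mul', norm_pow]
    push_cast
    ring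
  · exact D.ort j k h

theorem N_pos (D : Data μ β) (k : ℕ) : 0 < N D k := by
  induction k with
  | zero => exact D.pos
  | succ k ih =>
    have h1 := D.recur k
    have h2 : 0 < ((k : ℝ) + 1) * N D k := by positivity
    have hb := D.big
    have h3 : ((k : ℝ) + β) * N D (k + 1) = (k + 1) * N D k := h1
    rw [← h3] at h2
    exact pos_of_mul_pos_right h2 (by positivity)

theorem norm_e_sq (D : Data μ β) (k : ℕ) : ‖e D k‖ ^ 2 = N D k := by
  have h := inner_self_eq_norm_sq_to_K (𝕜 := ℂ) (e D k)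
  rw [inner_e, if_pos rfl] at h
  have h2 : ((N D k : ℝ) : ℂ) = ((‖e D k‖ ^ 2 : ℝ) : ℂ) := by
    rw [h]; push_cast; rfl
  exact_mod_cast h2.symm

/-- terms of the reproducing kernel -/
noncomputable def κt (D : Data μ β) (w : ℂ) (k : ℕ) : Lp ℂ 2 μ :=
  ((conj w) ^ k / ((N D k : ℝ) : ℂ)) • e D k

theorem norm_κt_sq (D : Data μ β) (w : ℂ) (k : ℕ) :
    ‖κt D w k‖ ^ 2 = ‖w‖ ^ (2 * k) / N D k := by
  unfold κt
  rw [norm_smul, mul_pow, norm_e_sq, norm_div, norm_pow, RCLike.norm_conj, Complex.norm_real,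
    Real.norm_of_nonneg (N_pos D k).le]
  have := (N_pos D k).ne'
  field_simp
  ring

theorem summable_κt (D : Data μ β) {w : ℂ} (hw : ‖w‖ < 1) :
    Summable fun k => ‖κt D w k‖ := by
  have hb := D.big
  -- choose the ratio
  set r : ℝ := (1 + ‖w‖) / 2 with hr
  have hr1 : r < 1 := by rw [hr]; linarith
  have hwr : ‖w‖ < r := by rw [hr]; linarith
  have hw0 := norm_nonneg w
  have hr0 : 0 < r := by linarith
  apply summable_of_ratio_norm_eventually_le hr1
  have hlim : Tendsto (fun k : ℕ => ‖w‖ ^ 2 * (((k : ℝ) + β) / (k + 1))) atTop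
      (𝓝 (‖w‖ ^ 2 * 1)) := by
    apply Tendsto.const_mul
    have h1 : Tendsto (fun k : ℕ => 1 + (β - 1) / ((k : ℝ) + 1)) atTop (𝓝 (1 + 0)) := by
      apply Tendsto.const_add
      exact tendsto_const_div_atTop_nhds_zero_nat (β - 1) |>.comp (tendsto_add_atTop_nat 1) |>.congr
        (fun k => by simp)
    rw [add_zero] at h1
    refine h1.congr fun k => ?_
    have : (k : ℝ) + 1 ≠ 0 := by positivity
    field_simp
    ring
  rw [mul_one] at hlim
  have hlt : ‖w‖ ^ 2 < r ^ 2 := by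
    apply pow_lt_pow_left₀ hwr hw0 (by norm_num)
  filter_upwards [hlim.eventually_lt_const hlt] with k hk
  rw [norm_norm, norm_norm]
  apply abs_le_of_sq_le_sq' _ (by positivity) |>.2
  rw [mul_pow, norm_κt_sq, norm_κt_sq]
  have h1 : ((k : ℝ) + β) * N D (k + 1) = (k + 1) * N D k := D.recur k
  have hN := N_pos D k
  have hN1 := N_pos D (k + 1)
  have hkb : 0 < (k : ℝ) + β := by positivity
  have h2 : N D (k + 1) = (k + 1) * N D k / (k + β) := by
    field_simp
    linarith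
  have h3 : ‖w‖ ^ (2 * (k + 1)) / N D (k + 1)
      = (‖w‖ ^ 2 * (((k : ℝ) + β) / (k + 1))) * (‖w‖ ^ (2 * k) / N D k) := by
    rw [h2]
    have : (k : ℝ) + 1 ≠ 0 := by positivity
    field_simp
    ring
  rw [h3]
  apply mul_le_mul_of_nonneg_right hk.le (by positivity)

/-- The reproducing kernel. -/
noncomputable def κ (D : Data μ β) (w : ℂ) : Lp ℂ 2 μ := ∑' k, κt D w k

theorem hasSum_κ (D : Data μ β) {w : ℂ} (hw : ‖w‖ < 1) : HasSum (κt D w) (κ D w) := by
  haveI := D.fin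
  exact (Summable.of_norm (summable_κt D hw)).hasSum

theorem hasSum_inner (D : Data μ β) {w : ℂ} (hw : ‖w‖ < 1) (f : Lp ℂ 2 μ) :
    HasSum (fun k => w ^ k / ((N D k : ℝ) : ℂ) * inner ℂ (e D k) f) (inner ℂ (κ D w) f) := by
  have h1 := (hasSum_κ D hw).mapL (innerSL ℂ f)
  have h2 := h1.map (starRingEnd ℂ).toAddMonoidHom Complex.continuous_conj
  have h3 : (starRingEnd ℂ).toAddMonoidHom ((innerSL ℂ f) (κ D w)) = inner ℂ (κ D w) f := by
    show conj (inner ℂ f (κ D w)) = _
    exact inner_conj_symm _ _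
  rw [h3] at h2
  have h4 : (fun k => w ^ k / ((N D k : ℝ) : ℂ) * inner ℂ (e D k) f)
      = (starRingEnd ℂ).toAddMonoidHom ∘ (fun k => innerSL ℂ f (κt D w k)) := by
    funext k
    show _ = conj (inner ℂ f (κt D w k))
    unfold κt
    rw [inner_smul_right, map_mul, inner_conj_symm]
    simp
  rw [h4]
  exact h2

/-- evaluation on monomials -/
theorem inner_κ_e (D : Data μ β) {w : ℂ} (hw : ‖w‖ < 1) (j : ℕ) :
    inner ℂ (κ D w) (e D j) = w ^ j := by
  have h1 := hasSum_inner D hw (e D j)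
  have h2 : HasSum (fun k => w ^ k / ((N D k : ℝ) : ℂ) * inner ℂ (e D k) (e D j)) (w ^ j) := by
    have : (fun k => w ^ k / ((N D k : ℝ) : ℂ) * inner ℂ (e D k) (e D j))
        = fun k => if k = j then w ^ j else 0 := by
      funext k
      rw [inner_e]
      split_ifs with h
      · subst h
        have : ((N D k : ℝ) : ℂ) ≠ 0 := by exact_mod_cast (N_pos D k).ne'
        field_simp
      · simp
    rw [this]
    exact hasSum_ite_eq j (w ^ j)
  exact h1.unique h2

/-- holomorphy of the evaluation -/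
theorem differentiableOn_inner (D : Data μ β) (f : Lp ℂ 2 μ) :
    DifferentiableOn ℂ (fun w => inner ℂ (κ D w) f) (Metric.ball 0 1) := by
  intro w hw
  rw [mem_ball_zero_iff] at hw
  obtain ⟨r, hwr, hr1⟩ := exists_between hw
  have hr0 : 0 ≤ r := (norm_nonneg w).trans hwr.le
  have hrn : ‖((r : ℝ) : ℂ)‖ < 1 := by
    rw [Complex.norm_real, Real.norm_of_nonneg hr0]; exact hr1
  have hd : DifferentiableOn ℂ
      (fun w => ∑' k, w ^ k / ((N D k : ℝ) : ℂ) * inner ℂ (e D k) f) (Metric.ball 0 r) := by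
    apply Complex.differentiableOn_tsum_of_summable_norm
      (u := fun k => ‖κt D ((r : ℝ) : ℂ) k‖ * ‖f‖)
    · exact (summable_κt D hrn).mul_right _
    · intro k
      apply Differentiable.differentiableOn
      fun_prop
    · exact Metric.isOpen_ball
    · intro k z hz
      rw [mem_ball_zero_iff] at hz
      have h1 : ‖κt D ((r : ℝ) : ℂ) k‖ = r ^ k / N D k * ‖e D k‖ := by
        unfold κt
        rw [norm_smul, norm_div, norm_pow, RCLike.norm_conj, Complex.norm_real, Complex.norm_real,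
          Real.norm_of_nonneg hr0, Real.norm_of_nonneg (N_pos D k).le]
      rw [h1, norm_mul, norm_div, norm_pow, Complex.norm_real, Real.norm_of_nonneg (N_pos D k).le,
        mul_assoc]
      have hNk := N_pos D k
      apply mul_le_mul _ (norm_inner_le_norm _ _) (norm_nonneg _) (by positivity)
      apply div_le_div_of_nonneg_right _ hNk.le
      exact pow_le_pow_left₀ (norm_nonneg _) hz.le k
  have h2 : DifferentiableAt ℂ
      (fun w => ∑' k, w ^ k / ((N D k : ℝ) : ℂ) * inner ℂ (e D k) f) w :=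
    hd.differentiableAt (Metric.isOpen_ball.mem_nhds (by rwa [mem_ball_zero_iff]))
  apply DifferentiableAt.differentiableWithinAt
  apply h2.congr_of_eventuallyEq
  have : Metric.ball (0 : ℂ) 1 ∈ 𝓝 w := Metric.isOpen_ball.mem_nhds (by rwa [mem_ball_zero_iff])
  filter_upwards [this] with z hz
  rw [mem_ball_zero_iff] at hz
  exact (hasSum_inner D hz f).tsum_eq.symm

/-- The closed span of the monomials: the weighted Bergman space. -/
noncomputable def A (D : Data μ β) : Submodule ℂ (Lp ℂ 2 μ) :=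
  (Submodule.span ℂ (Set.range (e D))).topologicalClosure

theorem e_mem_A (D : Data μ β) (k : ℕ) : e D k ∈ A D :=
  Submodule.le_topologicalClosure _ (Submodule.subset_span ⟨k, rfl⟩)

/-- Every element of the Bergman space agrees a.e. with its holomorphic evaluation. -/
theorem ae_eq_inner (D : Data μ β) {f : Lp ℂ 2 μ} (hf : f ∈ A D) :
    (f : ℂ → ℂ) =ᵐ[μ] fun w => inner ℂ (κ D w) f := by
  -- the set of good elements
  let S : Submodule ℂ (Lp ℂ 2 μ) :=
    { carrier := {f | (f : ℂ → ℂ) =ᵐ[μ] fun w => inner ℂ (κ D w) f}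
      add_mem' := by
        intro f g hf hg
        have hf' : (f : ℂ → ℂ) =ᵐ[μ] fun w => inner ℂ (κ D w) f := hf
        have hg' : (g : ℂ → ℂ) =ᵐ[μ] fun w => inner ℂ (κ D w) g := hg
        show ((f + g : Lp ℂ 2 μ) : ℂ → ℂ) =ᵐ[μ] fun w => inner ℂ (κ D w) (f + g)
        filter_upwards [hf', hg', Lp.coeFn_add f g] with z h1 h2 h3
        rw [h3, Pi.add_apply, h1, h2, inner_add_right]
      zero_mem' := by
        show ((0 : Lp ℂ 2 μ) : ℂ → ℂ) =ᵐ[μ] fun w => inner ℂ (κ D w) (0 : Lp ℂ 2 μ)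
        filter_upwards [Lp.coeFn_zero ℂ 2 μ] with z h1
        rw [h1, inner_zero_right]; rfl
      smul_mem' := by
        intro c f hf
        have hf' : (f : ℂ → ℂ) =ᵐ[μ] fun w => inner ℂ (κ D w) f := hf
        show ((c • f : Lp ℂ 2 μ) : ℂ → ℂ) =ᵐ[μ] fun w => inner ℂ (κ D w) (c • f)
        filter_upwards [hf', Lp.coeFn_smul c f] with z h1 h2
        rw [h2, Pi.smul_apply, h1, inner_smul_right, smul_eq_mul] }
  have hS : ∀ f, f ∈ S ↔ (f : ℂ → ℂ) =ᵐ[μ] fun w => inner ℂ (κ D w) f := fun f => Iff.rfl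
  have hScl : IsClosed (S : Set (Lp ℂ 2 μ)) := by
    apply IsSeqClosed.isClosed
    intro u f hu hlim
    obtain ⟨ns, hns, hae⟩ := (tendstoInMeasure_of_tendsto_Lp hlim).exists_seq_tendsto_ae
    have hall : ∀ᵐ z ∂μ, ∀ n, (u n : ℂ → ℂ) z = inner ℂ (κ D z) (u n) := by
      rw [ae_all_iff]
      intro n
      exact hu n
    show (f : ℂ → ℂ) =ᵐ[μ] fun w => inner ℂ (κ D w) f
    filter_upwards [hae, hall] with z hz1 hz2
    have h1 : Tendsto (fun n => inner ℂ (κ D z) (u (ns n))) atTop (𝓝 (inner ℂ (κ D z) f)) :=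
      ((innerSL ℂ (κ D z)).continuous.tendsto f).comp (hlim.comp hns.tendsto_atTop)
    have h2 : Tendsto (fun n => (u (ns n) : ℂ → ℂ) z) atTop (𝓝 (inner ℂ (κ D z) f)) :=
      h1.congr fun n => (hz2 (ns n)).symm
    exact tendsto_nhds_unique hz1 h2
  have hle : A D ≤ S := by
    apply Submodule.topologicalClosure_minimal _ _ hScl
    rw [Submodule.span_le]
    rintro _ ⟨k, rfl⟩
    show (e D k : ℂ → ℂ) =ᵐ[μ] fun w => inner ℂ (κ D w) (e D k)
    filter_upwards [e_ae D k, D.ball] with z h1 h2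
    rw [h1, inner_κ_e D h2]
  exact hle hf

/-- Multiplication by the coordinate on `L²`. -/
theorem exists_mul (D : Data μ β) :
    ∃ M : Lp ℂ 2 μ →L[ℂ] Lp ℂ 2 μ, ∀ f, (M f : ℂ → ℂ) =ᵐ[μ] fun z => z * (f : ℂ → ℂ) z := by
  have hmem : ∀ f : Lp ℂ 2 μ, MemLp (fun z => z * (f : ℂ → ℂ) z) 2 μ := by
    intro f
    apply (Lp.memLp f).mono
    · exact measurable_id.aestronglyMeasurable.mul (Lp.aestronglyMeasurable f)
    · filter_upwards [D.ball] with z hz
      rw [norm_mul]
      exact mul_le_of_le_one_left (norm_nonneg _) hz.le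
  let L : Lp ℂ 2 μ →ₗ[ℂ] Lp ℂ 2 μ :=
    { toFun := fun f => (hmem f).toLp _
      map_add' := by
        intro f g
        apply Lp.ext
        filter_upwards [(hmem (f + g)).coeFn_toLp, (hmem f).coeFn_toLp, (hmem g).coeFn_toLp,
          Lp.coeFn_add f g, Lp.coeFn_add ((hmem f).toLp _) ((hmem g).toLp _)] with z h1 h2 h3 h4 h5
        rw [h1, h5, Pi.add_apply, h2, h3, h4, Pi.add_apply, mul_add]
      map_smul' := by
        intro c f
        apply Lp.ext
        filter_upwards [(hmem (c • f)).coeFn_toLp, (hmem f).coeFn_toLp,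
          Lp.coeFn_smul c f, Lp.coeFn_smul c ((hmem f).toLp _)] with z h1 h2 h3 h4
        rw [h1, RingHom.id_apply, h4, Pi.smul_apply, h2, h3, Pi.smul_apply, smul_eq_mul,
          smul_eq_mul]
        ring }
  have hL : ∀ f, (L f : ℂ → ℂ) =ᵐ[μ] fun z => z * (f : ℂ → ℂ) z := fun f => (hmem f).coeFn_toLp
  refine ⟨L.mkContinuous 1 fun f => ?_, fun f => hL f⟩
  rw [one_mul]
  apply Lp.norm_le_norm_of_ae_le
  filter_upwards [hL f, D.ball] with z h1 h2
  rw [h1, norm_mul]
  exact mul_le_of_le_one_left (norm_nonneg _) h2.le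

end Pool.Agent.N796.Berg
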