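import Pool.Agent.N796.BergB

set_option autoImplicit false

open MeasureTheory Filter Topology
open scoped ENNReal ComplexConjugate

namespace Pool.Agent.N796.Berg

variable {μ : Measure ℂ} {β : ℝ}

/-- There are two distinct points at which the kernel takes the same value. -/
theorem exists_points {β : ℝ} (hβ : 6 < β) :
    ∃ a : ℝ, 0 < a ∧ a < 1 ∧ ∃ b : ℂ, ‖b‖ < 1 ∧ b ≠ a ∧
      1 / (1 - (a : ℂ) * b) ^ (β : ℂ) = 1 / (1 - (a : ℂ) * a) ^ (β : ℂ) := by
  set φ : ℝ := 2 * Real.pi / β with hφ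
  have hpi := Real.pi_pos
  have hφ0 : 0 < φ := by positivity
  have hφ1 : φ < Real.pi / 3 := by
    rw [hφ, div_lt_div_iff₀ (by linarith) (by norm_num)]
    nlinarith
  have hcos : 1 / 2 < Real.cos φ := by
    rw [← Real.cos_pi_div_three]
    exact Real.cos_lt_cos_of_nonneg_of_le_pi hφ0.le (by linarith) hφ1
  have hcos1 : Real.cos φ < 1 := by
    rw [← Real.cos_zero]
    exact Real.cos_lt_cos_of_nonneg_of_le_pi le_rfl (by linarith) hφ0
  set s : ℝ := (2 * Real.cos φ - 1) / 2 with hs
  have hs0 : 0 < s := by rw [hs]; linarith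
  have hs1 : s < 1 / 2 := by rw [hs]; linarith
  set a : ℝ := Real.sqrt (1 - s) with ha
  have ha2 : a ^ 2 = 1 - s := Real.sq_sqrt (by linarith)
  have ha0 : 0 < a := Real.sqrt_pos.2 (by linarith)
  have ha1 : a < 1 := by nlinarith
  refine ⟨a, ha0, ha1, (1 - (s : ℂ) * Complex.exp (φ * Complex.I)) / a, ?_, ?_, ?_⟩
  · -- |b| < 1
    rw [norm_div, Complex.norm_real, Real.norm_of_nonneg ha0.le, div_lt_one ha0]
    apply lt_of_pow_lt_pow_left₀ 2 ha0.le
    rw [ha2, ← Complex.normSq_eq_norm_sq, Complex.normSq_apply]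
    have hre : (1 - (s : ℂ) * Complex.exp (φ * Complex.I)).re = 1 - s * Real.cos φ := by
      simp [Complex.exp_ofReal_mul_I_re]
    have him : (1 - (s : ℂ) * Complex.exp (φ * Complex.I)).im = - (s * Real.sin φ) := by
      simp [Complex.exp_ofReal_mul_I_im]
    rw [hre, him]
    have hsc := Real.sin_sq_add_cos_sq φ
    have h1 : (1 - s * Real.cos φ) * (1 - s * Real.cos φ) + -(s * Real.sin φ) * -(s * Real.sin φ)
        = 1 - 2 * s * Real.cos φ + s ^ 2 := by
      linear_combination s ^ 2 * hsc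
    rw [h1]
    have h2 : s + 1 < 2 * Real.cos φ := by rw [hs]; linarith
    nlinarith
  · -- b ≠ a
    intro h
    have hac : (a : ℂ) ≠ 0 := by exact_mod_cast ha0.ne'
    rw [div_eq_iff hac] at h
    have h1 := congrArg Complex.im h
    have him : (1 - (s : ℂ) * Complex.exp (φ * Complex.I)).im = - (s * Real.sin φ) := by
      simp [Complex.exp_ofReal_mul_I_im]
    rw [him] at h1
    simp at h1
    have hsin : 0 < Real.sin φ := Real.sin_pos_of_pos_of_lt_pi hφ0 (by linarith)
    rcases h1 with h1 | h1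
    · exact hs0.ne' h1
    · exact hsin.ne' h1
  · have hac : (a : ℂ) ≠ 0 := by exact_mod_cast ha0.ne'
    have h1 : 1 - (a : ℂ) * ((1 - (s : ℂ) * Complex.exp (φ * Complex.I)) / a)
        = (s : ℂ) * Complex.exp (φ * Complex.I) := by
      field_simp
      ring
    have h2 : 1 - (a : ℂ) * a = (s : ℂ) := by
      have : ((a ^ 2 : ℝ) : ℂ) = ((1 - s : ℝ) : ℂ) := by rw [ha2]
      push_cast at this
      rw [← sq, this]
      ring
    rw [h1, h2]
    have hsc : (s : ℂ) ≠ 0 := by exact_mod_cast hs0.ne'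
    congr 1
    rw [Complex.cpow_def_of_ne_zero (mul_ne_zero hsc (Complex.exp_ne_zero _)),
      Complex.cpow_def_of_ne_zero hsc]
    have hlog : Complex.log ((s : ℂ) * Complex.exp (φ * Complex.I))
        = Complex.log s + φ * Complex.I := by
      have h3 : (s : ℂ) * Complex.exp (φ * Complex.I)
          = Complex.exp (Complex.log s + φ * Complex.I) := by
        rw [Complex.exp_add, Complex.exp_log hsc]
      rw [h3, Complex.log_exp]
      · rw [← Complex.ofReal_log hs0.le]
        simp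
        linarith
      · rw [← Complex.ofReal_log hs0.le]
        simp
        linarith
    rw [hlog, add_mul, Complex.exp_add]
    have h4 : (φ : ℂ) * Complex.I * (β : ℂ) = 2 * Real.pi * Complex.I := by
      have hb : (β : ℂ) ≠ 0 := by
        have : β ≠ 0 := by linarith
        exact_mod_cast this
      rw [hφ]
      push_cast
      field_simp
    rw [h4, Complex.exp_two_pi_mul_I, mul_one]

/-- Abstract form of the main theorem. -/
theorem main (D : Data μ β) :
    ∃ V : Submodule ℂ (Lp ℂ 2 μ),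
        IsClosed (V : Set (Lp ℂ 2 μ)) ∧
        (∀ f ∈ V, ∃ g : ℂ → ℂ,
            DifferentiableOn ℂ g (Metric.ball (0 : ℂ) 1) ∧ (f : ℂ → ℂ) =ᵐ[μ] g) ∧
        (∀ f ∈ V, ∃ g ∈ V, (g : ℂ → ℂ) =ᵐ[μ] fun z => z * f z) ∧
        ¬ (V ≤ (Submodule.span ℂ
              {h : Lp ℂ 2 μ | ∃ p : Polynomial ℂ, ∃ w ∈ V,
                (∀ f ∈ V, ∀ g ∈ V,
                    (g : ℂ → ℂ) =ᵐ[μ] (fun z => z * f z) → inner ℂ g w = 0) ∧
                (h : ℂ → ℂ) =ᵐ[μ] fun z => p.eval z * w z}).topologicalClosure) := by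
  classical
  obtain ⟨a, ha0, ha1, b, hb1, hba, hker⟩ := exists_points D.big
  obtain ⟨M, hM⟩ := exists_mul D
  have hac : (a : ℂ) ≠ 0 := by exact_mod_cast ha0.ne'
  have han : ‖(a : ℂ)‖ < 1 := by
    rw [Complex.norm_real, Real.norm_of_nonneg ha0.le]; exact ha1
  -- multiplication and monomials
  have hMe : ∀ k, M (e D k) = e D (k + 1) := by
    intro k
    apply Lp.ext
    filter_upwards [hM (e D k), e_ae D k, e_ae D (k + 1)] with z h1 h2 h3
    rw [h1, h2, h3]
    ring
  have hMA : ∀ f ∈ A D, M f ∈ A D := by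
    intro f hf
    have hf' : f ∈ closure ((Submodule.span ℂ (Set.range (e D)) : Submodule ℂ (Lp ℂ 2 μ)) :
      Set (Lp ℂ 2 μ)) := hf
    have hsub : (Submodule.span ℂ (Set.range (e D))) ≤
        (Submodule.span ℂ (Set.range (e D))).comap (M : Lp ℂ 2 μ →ₗ[ℂ] Lp ℂ 2 μ) := by
      rw [Submodule.span_le]
      rintro _ ⟨k, rfl⟩
      show M (e D k) ∈ Submodule.span ℂ (Set.range (e D))
      rw [hMe]
      exact Submodule.subset_span ⟨k + 1, rfl⟩
    have h2 := map_mem_closure (t := ((Submodule.span ℂ (Set.range (e D)) :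
      Submodule ℂ (Lp ℂ 2 μ)) : Set (Lp ℂ 2 μ))) M.continuous hf' (fun x hx => hsub hx)
    exact h2
  have hMκ : ∀ w : ℂ, ‖w‖ < 1 → ∀ f ∈ A D, inner ℂ (κ D w) (M f) = w * inner ℂ (κ D w) f := by
    intro w hw f hf
    let L : Lp ℂ 2 μ →L[ℂ] ℂ := (innerSL ℂ (κ D w)).comp M - w • innerSL ℂ (κ D w)
    have hL : A D ≤ LinearMap.ker (L : Lp ℂ 2 μ →ₗ[ℂ] ℂ) := by
      apply Submodule.topologicalClosure_minimal
      · rw [Submodule.span_le]
        rintro _ ⟨k, rfl⟩
        show inner ℂ (κ D w) (M (e D k)) - w * inner ℂ (κ D w) (e D k) = 0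
        rw [hMe, inner_κ_e D hw, inner_κ_e D hw]
        ring
      · exact L.isClosed_ker
    have := hL hf
    have h2 : inner ℂ (κ D w) (M f) - w * inner ℂ (κ D w) f = 0 := this
    exact sub_eq_zero.1 h2
  -- the subspace
  let V : Submodule ℂ (Lp ℂ 2 μ) :=
    A D ⊓ LinearMap.ker (innerSL ℂ (κ D (a : ℂ)) : Lp ℂ 2 μ →ₗ[ℂ] ℂ)
  have hV : ∀ f, f ∈ V ↔ f ∈ A D ∧ inner ℂ (κ D (a : ℂ)) f = 0 := fun f => Iff.rfl
  have hVcl : IsClosed (V : Set (Lp ℂ 2 μ)) := by
    have h1 : IsClosed (A D : Set (Lp ℂ 2 μ)) := Submodule.isClosed_topologicalClosure _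
    exact h1.inter (innerSL ℂ (κ D (a : ℂ))).isClosed_ker
  have hMV : ∀ f ∈ V, M f ∈ V := by
    intro f hf
    rw [hV] at hf ⊢
    exact ⟨hMA f hf.1, by rw [hMκ _ han f hf.1, hf.2, mul_zero]⟩
  have hp : ∀ k, e D (k + 1) - (a : ℂ) • e D k ∈ V := by
    intro k
    rw [hV]
    refine ⟨Submodule.sub_mem _ (e_mem_A D _) (Submodule.smul_mem _ _ (e_mem_A D _)), ?_⟩
    rw [inner_sub_right, inner_smul_right, inner_κ_e D han, inner_κ_e D han]
    ring
  refine ⟨V, hVcl, ?_, ?_, ?_⟩
  · intro f hf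
    exact ⟨_, differentiableOn_inner D f, ae_eq_inner D ((hV f).1 hf).1⟩
  · intro f hf
    exact ⟨M f, hMV f hf, hM f⟩
  · intro hle
    -- vanishing at b of wandering vectors
    have hwand : ∀ w ∈ V, (∀ f ∈ V, ∀ g ∈ V,
        (g : ℂ → ℂ) =ᵐ[μ] (fun z => z * f z) → inner ℂ g w = 0) → inner ℂ (κ D b) w = 0 := by
      intro w hw horth
      set c : ℕ → ℂ := fun k => inner ℂ (e D k) w with hc
      have hrec : ∀ k, c (k + 2) = a * c (k + 1) := by
        intro k
        have h1 := horth _ (hp k) _ (hMV _ (hp k)) (hM _)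
        rw [map_sub, map_smul, hMe, hMe, inner_sub_left, inner_smul_left, Complex.conj_ofReal] at h1
        exact sub_eq_zero.1 h1
      have hck : ∀ k, c (k + 1) = (a : ℂ) ^ k * c 1 := by
        intro k
        induction k with
        | zero => simp
        | succ k ih => rw [hrec, ih]; ring
      have hval : ∀ w' : ℂ, ‖w'‖ < 1 → (a : ℂ) * inner ℂ (κ D w') w
          = a * (c 0 / ((N D 0 : ℝ) : ℂ))
            + c 1 / ((N D 0 : ℝ) : ℂ) * (1 / (1 - (a : ℂ) * w') ^ (β : ℂ) - 1) := by
        intro w' hw'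
        have hN0 : ((N D 0 : ℝ) : ℂ) ≠ 0 := by exact_mod_cast (N_pos D 0).ne'
        have h1 := (hasSum_inner D hw' w).mul_left (a : ℂ)
        have haw : ‖(a : ℂ) * w'‖ < 1 := by
          rw [norm_mul]
          calc ‖(a : ℂ)‖ * ‖w'‖ ≤ 1 * ‖w'‖ :=
                mul_le_mul_of_nonneg_right han.le (norm_nonneg _)
            _ < 1 := by rw [one_mul]; exact hw'
        have h2 := hasSum_kernel (β := β) (by have := D.big; linarith) (N D) (N_pos D 0) D.recur haw
        have h3 := (h2.mul_left (c 1 / ((N D 0 : ℝ) : ℂ)))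
        have h4 := h3.add (hasSum_ite_eq (α := ℂ) (0 : ℕ)
          (a * (c 0 / ((N D 0 : ℝ) : ℂ)) - c 1 / ((N D 0 : ℝ) : ℂ)))
        have h5 : (fun k => (a : ℂ) * (w' ^ k / ((N D k : ℝ) : ℂ) * inner ℂ (e D k) w))
            = fun k => c 1 / ((N D 0 : ℝ) : ℂ) * (((N D 0 / N D k : ℝ) : ℂ) * ((a : ℂ) * w') ^ k)
              + if k = 0 then (a * (c 0 / ((N D 0 : ℝ) : ℂ)) - c 1 / ((N D 0 : ℝ) : ℂ)) else 0 := by
          funext k
          have hNk : ((N D k : ℝ) : ℂ) ≠ 0 := by exact_mod_cast (N_pos D k).ne'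
          have hcc : inner ℂ (e D k) w = c k := rfl
          rw [hcc]
          rcases Nat.eq_zero_or_pos k with h0 | h0
          · subst h0
            simp only [pow_zero, if_true]
            push_cast
            field_simp
            ring
          · obtain ⟨m, rfl⟩ : ∃ m, k = m + 1 := ⟨k - 1, by omega⟩
            rw [hck m, if_neg (by omega)]
            push_cast
            field_simp
            ring
        rw [h5] at h1
        rw [h1.unique h4]
        ring
      have hA := hval a han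
      have hB := hval b hb1
      rw [((hV w).1 hw).2, mul_zero] at hA
      rw [hker, ← hA] at hB
      exact (mul_eq_zero.1 hB).resolve_left hac
    -- polynomial multiples
    have hpoly : ∀ p : Polynomial ℂ, ∀ w ∈ A D, ∃ h ∈ A D,
        ((h : ℂ → ℂ) =ᵐ[μ] fun z => p.eval z * w z) ∧
        inner ℂ (κ D b) h = p.eval b * inner ℂ (κ D b) w := by
      intro p
      induction p using Polynomial.induction_on' with
      | add p q hp hq =>
        intro w hw
        obtain ⟨h1, h1A, h1e, h1i⟩ := hp w hw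
        obtain ⟨h2, h2A, h2e, h2i⟩ := hq w hw
        refine ⟨h1 + h2, Submodule.add_mem _ h1A h2A, ?_, ?_⟩
        · filter_upwards [h1e, h2e, Lp.coeFn_add h1 h2] with z e1 e2 e3
          rw [e3, Pi.add_apply, e1, e2, Polynomial.eval_add]
          ring
        · rw [inner_add_right, h1i, h2i, Polynomial.eval_add]
          ring
      | monomial n c =>
        induction n with
        | zero =>
          intro w hw
          refine ⟨c • w, Submodule.smul_mem _ _ hw, ?_, ?_⟩
          · filter_upwards [Lp.coeFn_smul c w] with z e1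
            rw [e1, Pi.smul_apply, smul_eq_mul]
            simp
          · rw [inner_smul_right]
            simp
        | succ n ih =>
          intro w hw
          obtain ⟨h, hA, he, hi⟩ := ih w hw
          refine ⟨M h, hMA h hA, ?_, ?_⟩
          · filter_upwards [hM h, he] with z e1 e2
            rw [e1, e2]
            simp [pow_succ]
            ring
          · rw [hMκ b hb1 h hA, hi]
            simp [pow_succ]
            ring
    -- everything in the closed span vanishes at b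
    have hker2 : (Submodule.span ℂ
              {h : Lp ℂ 2 μ | ∃ p : Polynomial ℂ, ∃ w ∈ V,
                (∀ f ∈ V, ∀ g ∈ V,
                    (g : ℂ → ℂ) =ᵐ[μ] (fun z => z * f z) → inner ℂ g w = 0) ∧
                (h : ℂ → ℂ) =ᵐ[μ] fun z => p.eval z * w z}).topologicalClosure
        ≤ LinearMap.ker (innerSL ℂ (κ D b) : Lp ℂ 2 μ →ₗ[ℂ] ℂ) := by
      apply Submodule.topologicalClosure_minimal
      · rw [Submodule.span_le]
        rintro h ⟨p, w, hw, horth, hh⟩
        obtain ⟨h', -, he, hi⟩ := hpoly p w ((hV w).1 hw).1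
        have hhh : h = h' := Lp.ext (hh.trans he.symm)
        show inner ℂ (κ D b) h = 0
        rw [hhh, hi, hwand w hw horth, mul_zero]
      · exact (innerSL ℂ (κ D b)).isClosed_ker
    have h1 := hker2 (hle (hp 0))
    have h2 : inner ℂ (κ D b) (e D (0 + 1) - (a : ℂ) • e D 0) = 0 := h1
    rw [inner_sub_right, inner_smul_right, inner_κ_e D hb1, inner_κ_e D hb1] at h2
    simp at h2
    exact hba (sub_eq_zero.1 h2)

end Pool.Agent.N796.Berg
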