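import Pool.Agent.N796.BergC

set_option autoImplicit false

open MeasureTheory Filter Topology
open scoped ENNReal NNReal ComplexConjugate

namespace Pool.Agent.N796.Berg

/-- the radial integrals -/
noncomputable def J (α : ℝ) (k : ℕ) : ℝ := ∫ y in (0:ℝ)..1, y ^ (2 * k + 1) * (1 - y ^ 2) ^ α

theorem J_cont {α : ℝ} (hα : 4 < α) (k : ℕ) :
    Continuous fun y : ℝ => y ^ (2 * k + 1) * (1 - y ^ 2) ^ α := by
  apply (continuous_pow _).mul
  apply Continuous.rpow_const (by fun_prop)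
  intro x
  right
  linarith

theorem J_rec {α : ℝ} (hα : 4 < α) (k : ℕ) :
    ((k : ℝ) + (α + 2)) * J α (k + 1) = (k + 1) * J α k := by
  have hd : ∀ y : ℝ, HasDerivAt (fun y : ℝ => y ^ (2 * k + 2) * (1 - y ^ 2) ^ (α + 1))
      (((2 * k + 2 : ℕ) : ℝ) * y ^ (2 * k + 1) * (1 - y ^ 2) ^ (α + 1)
        + y ^ (2 * k + 2) * ((-(2 * y)) * (α + 1) * (1 - y ^ 2) ^ (α + 1 - 1))) y := by
    intro y
    have h1 : HasDerivAt (fun y : ℝ => y ^ (2 * k + 2)) (((2 * k + 2 : ℕ) : ℝ) * y ^ (2 * k + 1)) y :=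
      hasDerivAt_pow (2 * k + 2) y
    have h2 : HasDerivAt (fun y : ℝ => 1 - y ^ 2) (-(2 * y)) y := by
      have := (hasDerivAt_pow 2 y).const_sub 1
      simpa using this
    exact h1.mul (h2.rpow_const (Or.inr (by linarith)))
  have hc : Continuous (fun y : ℝ => ((2 * k + 2 : ℕ) : ℝ) * y ^ (2 * k + 1) * (1 - y ^ 2) ^ (α + 1)
        + y ^ (2 * k + 2) * ((-(2 * y)) * (α + 1) * (1 - y ^ 2) ^ (α + 1 - 1))) := by
    have c1 : Continuous fun y : ℝ => (1 - y ^ 2) ^ (α + 1) :=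
      Continuous.rpow_const (by fun_prop) (fun x => Or.inr (by linarith))
    have c2 : Continuous fun y : ℝ => (1 - y ^ 2) ^ (α + 1 - 1) :=
      Continuous.rpow_const (by fun_prop) (fun x => Or.inr (by linarith))
    fun_prop
  have hftc := intervalIntegral.integral_eq_sub_of_hasDerivAt (a := 0) (b := 1)
    (fun y _ => hd y) (hc.intervalIntegrable _ _)
  have h0 : (1 : ℝ) ^ (2 * k + 2) * (1 - 1 ^ 2) ^ (α + 1)
      - 0 ^ (2 * k + 2) * (1 - 0 ^ 2) ^ (α + 1) = 0 := by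
    rw [one_pow, one_pow, sub_self, Real.zero_rpow (by linarith)]
    simp
  rw [h0] at hftc
  have hcongr : (∫ y in (0:ℝ)..1, (((2 * k + 2 : ℕ) : ℝ) * y ^ (2 * k + 1) * (1 - y ^ 2) ^ (α + 1)
        + y ^ (2 * k + 2) * ((-(2 * y)) * (α + 1) * (1 - y ^ 2) ^ (α + 1 - 1))))
      = ∫ y in (0:ℝ)..1, ((2 * ((k : ℝ) + 1)) * (y ^ (2 * k + 1) * (1 - y ^ 2) ^ α)
        - (2 * ((k : ℝ) + (α + 2))) * (y ^ (2 * (k + 1) + 1) * (1 - y ^ 2) ^ α)) := by
    apply intervalIntegral.integral_congr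
    intro y hy
    rw [Set.uIcc_of_le zero_le_one] at hy
    have hy2 : 0 ≤ 1 - y ^ 2 := by nlinarith [hy.1, hy.2]
    show ((2 * k + 2 : ℕ) : ℝ) * y ^ (2 * k + 1) * (1 - y ^ 2) ^ (α + 1)
        + y ^ (2 * k + 2) * ((-(2 * y)) * (α + 1) * (1 - y ^ 2) ^ (α + 1 - 1)) = _
    rw [Real.rpow_add_one' hy2 (by linarith), add_sub_cancel_right]
    push_cast
    ring
  rw [hcongr, intervalIntegral.integral_sub, intervalIntegral.integral_const_mul,
    intervalIntegral.integral_const_mul] at hftc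
  · have : 2 * ((k : ℝ) + 1) * J α k - 2 * ((k : ℝ) + (α + 2)) * J α (k + 1) = 0 := hftc
    linarith
  · exact ((J_cont hα k).const_mul _).intervalIntegrable _ _
  · exact ((J_cont hα (k + 1)).const_mul _).intervalIntegrable _ _

theorem J_zero_pos {α : ℝ} (hα : 4 < α) : 0 < J α 0 := by
  apply intervalIntegral.intervalIntegral_pos_of_pos_on
  · exact (J_cont hα 0).intervalIntegrable _ _
  · intro y hy
    have : 0 < 1 - y ^ 2 := by nlinarith [hy.1, hy.2]
    have := hy.1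
    positivity
  · exact zero_lt_one

end Pool.Agent.N796.Berg
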