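import Pool.Agent.N796.BergD

set_option autoImplicit false

open MeasureTheory Filter Topology
open scoped ENNReal NNReal ComplexConjugate

namespace Pool.Agent.N796.Berg

/-- the weight -/
noncomputable def ρ (α : ℝ) (z : ℂ) : ℝ := (1 + α) * (1 - ‖z‖ ^ 2) ^ α / Real.pi

/-- the measure -/
noncomputable def ν (α : ℝ) : Measure ℂ :=
  (volume.restrict (Metric.ball (0 : ℂ) 1)).withDensity (fun z : ℂ => ENNReal.ofReal (ρ α z))

theorem ρ_cont {α : ℝ} (hα : 4 < α) : Continuous (ρ α) := by
  unfold ρ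
  apply Continuous.div_const
  apply continuous_const.mul
  apply Continuous.rpow_const (by fun_prop)
  intro x
  right
  linarith

theorem ρ_nonneg {α : ℝ} (hα : 4 < α) {z : ℂ} (hz : ‖z‖ < 1) : 0 ≤ ρ α z := by
  unfold ρ
  have : 0 ≤ 1 - ‖z‖ ^ 2 := by nlinarith [norm_nonneg z]
  have := Real.pi_pos
  positivity

theorem integral_ν {α : ℝ} (hα : 4 < α) {E : Type*} [NormedAddCommGroup E] [NormedSpace ℝ E]
    (g : ℂ → E) :
    ∫ z, g z ∂(ν α) = ∫ z : ℂ, (Metric.ball (0 : ℂ) 1).indicator (fun z => ρ α z • g z) z := by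
  have h1 : ν α = (volume.restrict (Metric.ball (0 : ℂ) 1)).withDensity
      (fun z : ℂ => ((Real.toNNReal (ρ α z) : ℝ≥0) : ℝ≥0∞)) := rfl
  rw [h1, integral_withDensity_eq_integral_smul (ρ_cont hα).measurable.real_toNNReal,
    integral_indicator measurableSet_ball]
  apply setIntegral_congr_fun measurableSet_ball
  intro z hz
  rw [mem_ball_zero_iff] at hz
  show Real.toNNReal (ρ α z) • g z = ρ α z • g z
  rw [NNReal.smul_def, Real.coe_toNNReal _ (ρ_nonneg hα hz)]

theorem fin_ν {α : ℝ} (hα : 4 < α) : IsFiniteMeasure (ν α) := by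
  apply isFiniteMeasure_withDensity
  have hle : (∫⁻ z in Metric.ball (0 : ℂ) 1, ENNReal.ofReal (ρ α z))
      ≤ ∫⁻ z in Metric.ball (0 : ℂ) 1, ENNReal.ofReal ((1 + α) / Real.pi) := by
    apply setLIntegral_mono measurable_const
    intro z hz
    rw [mem_ball_zero_iff] at hz
    apply ENNReal.ofReal_le_ofReal
    unfold ρ
    apply div_le_div_of_nonneg_right _ Real.pi_pos.le
    have h1 : (1 - ‖z‖ ^ 2) ^ α ≤ 1 := by
      apply Real.rpow_le_one
      · nlinarith [norm_nonneg z]
      · nlinarith [norm_nonneg z]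
      · linarith
    nlinarith
  apply ne_of_lt
  apply lt_of_le_of_lt hle
  rw [setLIntegral_const]
  exact ENNReal.mul_lt_top ENNReal.ofReal_lt_top measure_ball_lt_top

theorem ball_ν {α : ℝ} : ∀ᵐ z ∂(ν α), ‖z‖ < 1 := by
  have h1 : ν α ≪ volume.restrict (Metric.ball (0 : ℂ) 1) := withDensity_absolutelyContinuous _ _
  apply h1.ae_le
  filter_upwards [ae_restrict_mem measurableSet_ball] with z hz
  rwa [mem_ball_zero_iff] at hz

theorem ort_ν {α : ℝ} (hα : 4 < α) (j k : ℕ) (hjk : j ≠ k) :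
    ∫ z, conj (z ^ j) * z ^ k ∂(ν α) = 0 := by
  rw [integral_ν hα]
  set F : ℂ → ℂ := (Metric.ball (0 : ℂ) 1).indicator (fun z => ρ α z • (conj (z ^ j) * z ^ k))
    with hF
  -- a rotation
  have hrot : ∀ c : Circle, ∀ z : ℂ, F ((c : ℂ) * z) = (conj ((c : ℂ) ^ j) * (c : ℂ) ^ k) * F z := by
    intro c z
    have hcn : ‖(c : ℂ) * z‖ = ‖z‖ := by rw [norm_mul, Circle.norm_coe, one_mul]
    by_cases hz : z ∈ Metric.ball (0 : ℂ) 1
    · have hz' : (c : ℂ) * z ∈ Metric.ball (0 : ℂ) 1 := by
        rw [mem_ball_zero_iff] at hz ⊢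
        rwa [hcn]
      rw [hF, Set.indicator_of_mem hz', Set.indicator_of_mem hz]
      have : ρ α ((c : ℂ) * z) = ρ α z := by unfold ρ; rw [hcn]
      rw [this, Complex.real_smul, Complex.real_smul, mul_pow, mul_pow, map_mul]
      ring
    · have hz' : (c : ℂ) * z ∉ Metric.ball (0 : ℂ) 1 := by
        rw [mem_ball_zero_iff] at hz ⊢
        rwa [hcn]
      rw [hF, Set.indicator_of_notMem hz', Set.indicator_of_notMem hz, mul_zero]
  have hint : ∀ c : Circle, ∫ z, F z = (conj ((c : ℂ) ^ j) * (c : ℂ) ^ k) * ∫ z, F z := by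
    intro c
    have h1 := (LinearIsometryEquiv.measurePreserving (rotation c)).integral_comp
      (rotation c).toHomeomorph.measurableEmbedding F
    have h2 : (fun z => F ((rotation c) z)) = fun z => (conj ((c : ℂ) ^ j) * (c : ℂ) ^ k) * F z := by
      funext z
      rw [rotation_apply, hrot]
    rw [h2, integral_const_mul] at h1
    exact h1.symm
  -- choose the rotation
  have hkj : ((k : ℝ) - j) ≠ 0 := by
    intro h
    apply hjk
    have : (k : ℝ) = j := by linarith
    exact_mod_cast this.symm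
  have h1 := hint (Circle.exp (Real.pi / ((k : ℝ) - j)))
  have h2 : conj (((Circle.exp (Real.pi / ((k : ℝ) - j)) : Circle) : ℂ) ^ j)
      * ((Circle.exp (Real.pi / ((k : ℝ) - j)) : Circle) : ℂ) ^ k = -1 := by
    rw [Circle.coe_exp, map_pow, ← Complex.exp_conj, ← Complex.exp_nat_mul, ← Complex.exp_nat_mul,
      ← Complex.exp_add, ← Complex.exp_pi_mul_I]
    congr 1
    have hc : ((k : ℂ) - j) ≠ 0 := by exact_mod_cast hkj
    simp only [map_mul, Complex.conj_ofReal, Complex.conj_I]
    push_cast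
    field_simp
    ring
  rw [h2] at h1
  have : (2 : ℂ) * ∫ z, F z = 0 := by linear_combination h1
  exact (mul_eq_zero.1 this).resolve_left two_ne_zero

theorem N_ν {α : ℝ} (hα : 4 < α) (k : ℕ) :
    ∫ z : ℂ, ‖z‖ ^ (2 * k) ∂(ν α) = 2 * (1 + α) * J α k := by
  rw [integral_ν hα]
  set F : ℝ → ℝ := (Set.Iio (1:ℝ)).indicator
    (fun y => ((1 + α) * (1 - y ^ 2) ^ α / Real.pi) * y ^ (2 * k)) with hF
  have h1 : (fun z : ℂ => (Metric.ball (0 : ℂ) 1).indicator
      (fun z => ρ α z • ‖z‖ ^ (2 * k)) z) = fun z : ℂ => F ‖z‖ := by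
    funext z
    by_cases hz : ‖z‖ < 1
    · rw [Set.indicator_of_mem (by rwa [mem_ball_zero_iff]), hF, Set.indicator_of_mem (by exact hz)]
      rfl
    · rw [Set.indicator_of_notMem (by rwa [mem_ball_zero_iff]), hF,
        Set.indicator_of_notMem (by exact hz)]
  rw [h1, integral_fun_norm_addHaar (volume : Measure ℂ) F]
  have h2 : volume.real (Metric.ball (0 : ℂ) 1) = Real.pi := by
    rw [Measure.real, Complex.volume_ball]
    simp
  rw [h2, Complex.finrank_real_complex]
  have h3 : (∫ y in Set.Ioi (0:ℝ), y ^ (2 - 1) • F y) = (1 + α) / Real.pi * J α k := by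
    have h4 : (fun y : ℝ => y ^ (2 - 1) • F y) = (Set.Iio (1:ℝ)).indicator
        (fun y => (1 + α) / Real.pi * (y ^ (2 * k + 1) * (1 - y ^ 2) ^ α)) := by
      funext y
      by_cases hy : y < 1
      · rw [hF, Set.indicator_of_mem (by exact hy), Set.indicator_of_mem (by exact hy), smul_eq_mul]
        ring
      · rw [hF, Set.indicator_of_notMem (by exact hy), Set.indicator_of_notMem (by exact hy),
          smul_zero]
    rw [h4, setIntegral_indicator measurableSet_Iio, Set.Ioi_inter_Iio, ← integral_Ioc_eq_integral_Ioo,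
      ← intervalIntegral.integral_of_le zero_le_one, intervalIntegral.integral_const_mul]
    rfl
  rw [h3]
  have := Real.pi_ne_zero
  simp only [nsmul_eq_mul, smul_eq_mul]
  push_cast
  field_simp

theorem data {α : ℝ} (hα : 4 < α) : Data (ν α) (α + 2) where
  fin := fin_ν hα
  ball := ball_ν
  ort := ort_ν hα
  pos := by
    rw [N_ν hα]
    have := J_zero_pos hα
    have h2 : 0 < 1 + α := by linarith
    positivity
  recur := by
    intro k
    rw [N_ν hα, N_ν hα]
    have := J_rec hα k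
    linear_combination (2 * (1 + α)) * this
  big := by linarith

end Pool.Agent.N796.Berg
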