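import Mathlib

set_option autoImplicit false

open Topology
namespace Pool.Agent.N796.FrechetMod

universe u

/-- A (complex) Fréchet space: complete, metrizable, locally convex topological vector space. -/
class FrechetSpace (E : Type*) [AddCommGroup E] [Module ℂ E] [UniformSpace E] : Prop where
  isUniformAddGroup : IsUniformAddGroup E
  continuousSMul : ContinuousSMul ℂ E
  locallyConvex : LocallyConvexSpace ℝ E
  complete : CompleteSpace E
  metrizable : TopologicalSpace.MetrizableSpace E

/-- A (left) Fréchet module over a (not necessarily unital) topological algebra `A`: a Fréchet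
space with a jointly continuous bilinear associative action of `A`. -/
structure FrechetModule (A : Type) [NonUnitalRing A] [Module ℂ A] [TopologicalSpace A] where
  /-- the underlying space -/
  carrier : Type u
  [addCommGroup : AddCommGroup carrier]
  [module : Module ℂ carrier]
  [uniformSpace : UniformSpace carrier]
  [frechetSpace : FrechetSpace carrier]
  /-- the action -/
  act : A →ₗ[ℂ] carrier →ₗ[ℂ] carrier
  act_mul : ∀ a b x, act (a * b) x = act a (act b x)
  continuous_act : Continuous fun p : A × carrier => act p.1 p.2

attribute [instance] FrechetModule.addCommGroup FrechetModule.module FrechetModule.uniformSpace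
  FrechetModule.frechetSpace

section

variable {A : Type} [NonUnitalRing A] [Module ℂ A] [TopologicalSpace A]

/-- `φ` is a morphism of modules: a continuous linear map commuting with the action. -/
def IsMorphism {X Y : FrechetModule.{u} A} (φ : X.carrier →L[ℂ] Y.carrier) : Prop :=
  ∀ a x, φ (X.act a x) = Y.act a (φ x)

/-- Injectivity of `X` among the modules satisfying `P`: every morphism `φ : X → Y` with `Y` in
the class which has a continuous linear left inverse has a left inverse which is a morphism. -/
def InjectiveIn (P : FrechetModule.{u} A → Prop) (X : FrechetModule.{u} A) : Prop :=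
  ∀ (Y : FrechetModule.{u} A), P Y → ∀ φ : X.carrier →L[ℂ] Y.carrier, IsMorphism φ →
    (∃ ψ : Y.carrier →L[ℂ] X.carrier, ∀ x, ψ (φ x) = x) →
    ∃ ψ : Y.carrier →L[ℂ] X.carrier, IsMorphism ψ ∧ ∀ x, ψ (φ x) = x

/-- Injective Fréchet modules. -/
def Injective (X : FrechetModule.{u} A) : Prop := InjectiveIn (fun _ => True) X

end

/-- unital modules over a unital algebra -/
def IsUnital {A : Type} [Ring A] [Module ℂ A] [TopologicalSpace A] (X : FrechetModule.{u} A) :
    Prop := ∀ x, X.act 1 x = x

end Pool.Agent.N796.FrechetMod
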