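import Pool.Agent.N796.FrechetDefs

set_option autoImplicit false

open Topology
open scoped PowerSeries.WithPiTopology

namespace Pool.Agent.N796.FrechetMod

universe u

/-! ### A general vanishing lemma -/

theorem subsingleton_of_surj {E : Type*} [AddCommGroup E] [Module ℂ E] [TopologicalSpace E]
    [T1Space E] (T : E →ₗ[ℂ] E) (hT : Function.Surjective T)
    (hU : ∀ U ∈ 𝓝 (0 : E), ∃ n, ∀ x, (T ^ n) x ∈ U) : Subsingleton E := by
  have hz : ∀ x : E, x = 0 := by
    intro x
    by_contra hx
    have hmem : ({x}ᶜ : Set E) ∈ 𝓝 (0 : E) := by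
      apply (isOpen_compl_singleton).mem_nhds
      simpa using fun h => hx h.symm
    obtain ⟨n, hn⟩ := hU _ hmem
    have hsurj : Function.Surjective (T ^ n) := by
      rw [Module.End.coe_pow]
      exact hT.iterate n
    obtain ⟨y, hy⟩ := hsurj x
    exact hn y hy
  exact ⟨fun x y => by rw [hz x, hz y]⟩

/-- Joint continuity forces high powers to be locally trivial. -/
theorem locally_trivial {A E : Type*} [AddCommGroup A] [Module ℂ A] [TopologicalSpace A]
    [AddCommGroup E] [Module ℂ E] [TopologicalSpace E] [ContinuousSMul ℂ E]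
    (act : A →ₗ[ℂ] E →ₗ[ℂ] E) (hact : Continuous fun p : A × E => act p.1 p.2)
    (b : ℕ → A) (hb : ∀ W ∈ 𝓝 (0 : A), ∃ n, ∀ m ≥ n, ∀ s : ℂ, s • b m ∈ W)
    (U : Set E) (hU : U ∈ 𝓝 (0 : E)) : ∃ n, ∀ m ≥ n, ∀ x, act (b m) x ∈ U := by
  have h0 : (fun p : A × E => act p.1 p.2) ⁻¹' U ∈ 𝓝 ((0 : A), (0 : E)) := by
    apply hact.continuousAt
    simpa using hU
  rw [nhds_prod_eq, Filter.mem_prod_iff] at h0
  obtain ⟨W, hW, V, hV, hWV⟩ := h0
  obtain ⟨n, hn⟩ := hb W hW
  refine ⟨n, fun m hm x => ?_⟩
  -- scale x into V
  have hc : ContinuousAt (fun s : ℂ => s • x) 0 :=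
    (continuous_id.smul continuous_const).continuousAt
  have hpre : (fun s : ℂ => s • x) ⁻¹' V ∈ 𝓝 (0 : ℂ) := by
    apply hc
    simpa using hV
  have hne : ∃ s : ℂ, s ≠ 0 ∧ s • x ∈ V := by
    have h1 : ∀ᶠ s in 𝓝[≠] (0 : ℂ), s • x ∈ V := mem_nhdsWithin_of_mem_nhds hpre
    have h2 : ∀ᶠ s in 𝓝[≠] (0 : ℂ), s ≠ 0 := self_mem_nhdsWithin
    obtain ⟨s, hs1, hs2⟩ := (h1.and h2).exists
    exact ⟨s, hs2, hs1⟩
  obtain ⟨s, hs, hsV⟩ := hne
  have h3 : (s⁻¹ • b m, s • x) ∈ W ×ˢ V := ⟨hn m hm _, hsV⟩
  have h4 : act (s⁻¹ • b m) (s • x) ∈ U := hWV h3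
  have h5 : act (s⁻¹ • b m) (s • x) = act (b m) x := by
    rw [map_smul, map_smul, LinearMap.smul_apply, smul_smul, mul_inv_cancel₀ hs, one_smul]
  rwa [h5] at h4

/-- In `ℂ⟦X⟧` with the product topology, all multiples of `X ^ m` are small for large `m`. -/
theorem small_X_pow (W : Set (PowerSeries ℂ)) (hW : W ∈ 𝓝 (0 : PowerSeries ℂ)) :
    ∃ n, ∀ m ≥ n, ∀ s : ℂ, s • (PowerSeries.X : PowerSeries ℂ) ^ m ∈ W := by
  by_contra hcon
  push Not at hcon
  choose m hm s hs using hcon
  have hlim : Filter.Tendsto (fun n => s n • (PowerSeries.X : PowerSeries ℂ) ^ m n) Filter.atTop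
      (𝓝 0) := by
    rw [PowerSeries.WithPiTopology.tendsto_iff_coeff_tendsto]
    intro d
    apply tendsto_const_nhds.congr'
    filter_upwards [Filter.eventually_gt_atTop d] with n hn
    have : d ≠ m n := by have := hm n; omega
    simp [PowerSeries.coeff_X_pow, this]
  obtain ⟨n, hn⟩ := (hlim.eventually hW).exists
  exact hs n hn

/-- The backward shift on power series. -/
noncomputable def shift : PowerSeries ℂ →ₗ[ℂ] PowerSeries ℂ where
  toFun a := PowerSeries.mk fun n => PowerSeries.coeff (n + 1) a
  map_add' a b := by
    ext n; simp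
  map_smul' c a := by
    ext n; simp

theorem X_mul_shift (a : PowerSeries ℂ) :
    PowerSeries.X * shift a = a - PowerSeries.C (PowerSeries.constantCoeff a) := by
  ext n
  cases n with
  | zero => simp
  | succ n => simp [shift, PowerSeries.coeff_succ_X_mul]

theorem shift_mul (a b : PowerSeries ℂ) :
    shift (a * b) = a * shift b + (PowerSeries.constantCoeff b) • shift a := by
  have hX : (PowerSeries.X : PowerSeries ℂ) ≠ 0 := PowerSeries.X_ne_zero
  apply mul_left_cancel₀ hX
  rw [X_mul_shift, mul_add, mul_left_comm, X_mul_shift, mul_smul_comm, X_mul_shift, map_mul,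
    map_mul, PowerSeries.smul_eq_C_mul]
  ring

theorem shift_X_mul (a : PowerSeries ℂ) : shift (PowerSeries.X * a) = a := by
  ext n
  simp [shift, PowerSeries.coeff_succ_X_mul]

theorem continuous_shift : Continuous shift := by
  rw [continuous_iff_continuousAt]
  intro a
  show Filter.Tendsto _ _ _
  rw [PowerSeries.WithPiTopology.tendsto_iff_coeff_tendsto]
  intro d
  have h := (PowerSeries.WithPiTopology.continuous_coeff (R := ℂ) (d + 1)).tendsto a
  have e1 : (fun b : PowerSeries ℂ => PowerSeries.coeff d (shift b))
      = fun b => PowerSeries.coeff (d + 1) b := by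
    funext b; simp [shift]
  rw [e1]
  have e2 : PowerSeries.coeff d (shift a) = PowerSeries.coeff (d + 1) a := by simp [shift]
  rw [e2]
  exact h

instance frechetPowerSeries : FrechetSpace (PowerSeries ℂ) where
  isUniformAddGroup := inferInstance
  continuousSMul := inferInstanceAs (ContinuousSMul ℂ ((Unit →₀ ℕ) → ℂ))
  locallyConvex := inferInstanceAs (LocallyConvexSpace ℝ ((Unit →₀ ℕ) → ℂ))
  complete := inferInstance
  metrizable := inferInstanceAs (TopologicalSpace.MetrizableSpace ((Unit →₀ ℕ) → ℂ))

instance frechetProd {E : Type*} [AddCommGroup E] [Module ℂ E] [UniformSpace E]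
    [h : FrechetSpace E] : FrechetSpace (E × ℂ) where
  isUniformAddGroup := by
    have := h.isUniformAddGroup
    infer_instance
  continuousSMul := by
    have := h.continuousSMul
    infer_instance
  locallyConvex := by
    have := h.locallyConvex
    infer_instance
  complete := by
    have := h.complete
    infer_instance
  metrizable := by
    have := h.metrizable
    infer_instance

/-! ### The unital case -/

/-- The extension of the trivial one-dimensional module by `X` determined by `v`. -/
noncomputable def extU (X : FrechetModule.{u} (PowerSeries ℂ)) (v : X.carrier) :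
    FrechetModule.{u} (PowerSeries ℂ) where
  carrier := X.carrier × ℂ
  act := LinearMap.mk₂ ℂ
    (fun a p => (X.act a p.1 + p.2 • X.act (shift a) v, PowerSeries.constantCoeff a * p.2))
    (by
      intro a b p
      ext
      · simp only [map_add, LinearMap.add_apply, smul_add, Prod.fst_add]
        abel
      · simp [add_mul])
    (by
      intro c a p
      ext
      · simp only [map_smul, LinearMap.smul_apply, smul_add, Prod.smul_fst, smul_comm c]
      · simp [mul_assoc])
    (by
      intro a p q
      ext
      · simp only [map_add, Prod.fst_add, Prod.snd_add, add_smul]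
        abel
      · simp [mul_add])
    (by
      intro c a p
      ext
      · simp only [map_smul, Prod.smul_fst, Prod.smul_snd, smul_add, smul_assoc]
      · simp [mul_left_comm])
  act_mul := by
    intro a b p
    ext
    · simp only [LinearMap.mk₂_apply, X.act_mul, map_add, map_smul, shift_mul,
        LinearMap.add_apply, LinearMap.smul_apply, smul_add, smul_smul]
      rw [mul_comm p.2]
      abel
    · simp only [LinearMap.mk₂_apply, map_mul]
      ring
  continuous_act := by
    have h := X.frechetSpace
    have := h.isUniformAddGroup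
    have := h.continuousSMul
    simp only [LinearMap.mk₂_apply]
    apply Continuous.prodMk
    · apply Continuous.add
      · exact X.continuous_act.comp (continuous_fst.prodMk (continuous_fst.comp continuous_snd))
      · apply Continuous.smul (continuous_snd.comp continuous_snd)
        exact X.continuous_act.comp ((continuous_shift.comp continuous_fst).prodMk continuous_const)
    · exact ((PowerSeries.WithPiTopology.continuous_constantCoeff (R := ℂ)).comp continuous_fst).mul
        (continuous_snd.comp continuous_snd)

theorem extU_act (X : FrechetModule.{u} (PowerSeries ℂ)) (v : X.carrier) (a : PowerSeries ℂ)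
    (p : X.carrier × ℂ) : (extU X v).act a p
      = (X.act a p.1 + p.2 • X.act (shift a) v, PowerSeries.constantCoeff a * p.2) := rfl

theorem shift_one : shift (1 : PowerSeries ℂ) = 0 := by
  ext n; simp [shift, PowerSeries.coeff_one]

theorem shift_X : shift (PowerSeries.X : PowerSeries ℂ) = 1 := by
  have := shift_X_mul 1
  rwa [mul_one] at this

theorem extU_unital (X : FrechetModule.{u} (PowerSeries ℂ)) (hX : IsUnital X) (v : X.carrier) :
    IsUnital (extU X v) := by
  have e : ∀ q : X.carrier × ℂ, ((X.act 1 q.1 + q.2 • X.act (shift 1) v,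
      PowerSeries.constantCoeff 1 * q.2) : X.carrier × ℂ) = q := by
    intro q
    rw [hX, shift_one]
    ext <;> simp
  exact fun p => e p

/-- the inclusion of `X` in the extension -/
noncomputable def incl (X : FrechetModule.{u} (PowerSeries ℂ)) (v : X.carrier) :
    X.carrier →L[ℂ] (extU X v).carrier :=
  (ContinuousLinearMap.inl ℂ X.carrier ℂ : X.carrier →L[ℂ] X.carrier × ℂ)

/-- the projection of the extension on `X` -/
noncomputable def projl (X : FrechetModule.{u} (PowerSeries ℂ)) (v : X.carrier) :
    (extU X v).carrier →L[ℂ] X.carrier :=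
  (ContinuousLinearMap.fst ℂ X.carrier ℂ : X.carrier × ℂ →L[ℂ] X.carrier)

theorem incl_morphism (X : FrechetModule.{u} (PowerSeries ℂ)) (v : X.carrier) :
    IsMorphism (incl X v) := by
  intro a x
  show ((X.act a x, 0) : X.carrier × ℂ)
    = ((X.act a x + (0 : ℂ) • X.act (shift a) v, PowerSeries.constantCoeff a * 0) : X.carrier × ℂ)
  simp

theorem extU_act_X (X : FrechetModule.{u} (PowerSeries ℂ)) (hX : IsUnital X) (v : X.carrier) :
    (extU X v).act PowerSeries.X ((0, 1) : X.carrier × ℂ) = incl X v v := by
  show ((X.act PowerSeries.X 0 + (1 : ℂ) • X.act (shift PowerSeries.X) v,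
    PowerSeries.constantCoeff (PowerSeries.X : PowerSeries ℂ) * 1) : X.carrier × ℂ)
    = ((v, 0) : X.carrier × ℂ)
  rw [shift_X, hX]
  simp

theorem unital_case (X : FrechetModule.{u} (PowerSeries ℂ)) (hX : IsUnital X)
    (hinj : InjectiveIn IsUnital X) : Subsingleton X.carrier := by
  have h := X.frechetSpace
  have h1 := h.isUniformAddGroup
  have h2 := h.continuousSMul
  have h3 := h.metrizable
  apply subsingleton_of_surj (X.act PowerSeries.X)
  · intro v
    obtain ⟨ψ, hψ, hψφ⟩ := hinj (extU X v) (extU_unital X hX v) (incl X v) (incl_morphism X v)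
      ⟨projl X v, fun x => rfl⟩
    have key := hψ PowerSeries.X ((0, 1) : X.carrier × ℂ)
    exact ⟨_, key.symm.trans ((congrArg ψ (extU_act_X X hX v)).trans (hψφ v))⟩
  · intro U hU
    obtain ⟨n, hn⟩ := locally_trivial X.act X.continuous_act (fun m => PowerSeries.X ^ m)
      small_X_pow U hU
    refine ⟨n, fun x => ?_⟩
    have hpow : ∀ m, (X.act PowerSeries.X) ^ m = X.act (PowerSeries.X ^ m) := by
      intro m
      induction m with
      | zero =>
        ext x
        simp [hX x]
      | succ m ih =>
        ext x
        rw [pow_succ', pow_succ', Module.End.mul_apply, ih, X.act_mul]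
    rw [hpow]
    exact hn n le_rfl x

/-! ### The non-unital case: the algebra `X ℂ⟦X⟧` -/

/-- The non-unital algebra `X ℂ⟦X⟧`; the element `a` stands for the series `X * a`. -/
def XSer : Type := PowerSeries ℂ

noncomputable instance : AddCommGroup XSer := inferInstanceAs (AddCommGroup (PowerSeries ℂ))
noncomputable instance : Module ℂ XSer := inferInstanceAs (Module ℂ (PowerSeries ℂ))
noncomputable instance : UniformSpace XSer := inferInstanceAs (UniformSpace (PowerSeries ℂ))
instance : FrechetSpace XSer := inferInstanceAs (FrechetSpace (PowerSeries ℂ))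

/-- identity map to power series -/
def XSer.toPS (a : XSer) : PowerSeries ℂ := a

/-- identity map from power series -/
def XSer.ofPS (a : PowerSeries ℂ) : XSer := a

noncomputable instance : Mul XSer := ⟨fun a b => XSer.ofPS (PowerSeries.X * a.toPS * b.toPS)⟩

theorem XSer.mul_def (a b : XSer) : (a * b).toPS = PowerSeries.X * a.toPS * b.toPS := rfl

noncomputable instance : NonUnitalCommRing XSer :=
  { (inferInstance : AddCommGroup XSer) with
    mul := fun a b => a * b
    left_distrib := by
      intro a b c
      show PowerSeries.X * a.toPS * (b.toPS + c.toPS)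
        = PowerSeries.X * a.toPS * b.toPS + PowerSeries.X * a.toPS * c.toPS
      ring
    right_distrib := by
      intro a b c
      show PowerSeries.X * (a.toPS + b.toPS) * c.toPS
        = PowerSeries.X * a.toPS * c.toPS + PowerSeries.X * b.toPS * c.toPS
      ring
    zero_mul := by
      intro a
      show PowerSeries.X * (0 : PowerSeries ℂ) * a.toPS = 0
      ring
    mul_zero := by
      intro a
      show PowerSeries.X * a.toPS * (0 : PowerSeries ℂ) = 0
      ring
    mul_assoc := by
      intro a b c
      show PowerSeries.X * (PowerSeries.X * a.toPS * b.toPS) * c.toPS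
        = PowerSeries.X * a.toPS * (PowerSeries.X * b.toPS * c.toPS)
      ring
    mul_comm := by
      intro a b
      show PowerSeries.X * a.toPS * b.toPS = PowerSeries.X * b.toPS * a.toPS
      ring }

/-- The extension of the trivial one-dimensional module by `X` determined by `v`. -/
noncomputable def extN (X : FrechetModule.{u} XSer) (v : X.carrier) :
    FrechetModule.{u} XSer where
  carrier := X.carrier × ℂ
  act := LinearMap.mk₂ ℂ
    (fun a p => (X.act a p.1 + p.2 • ((PowerSeries.constantCoeff a.toPS) • v
      + X.act (XSer.ofPS (shift a.toPS)) v), 0))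
    (by
      intro a b p
      have e1 : PowerSeries.constantCoeff (a + b).toPS = PowerSeries.constantCoeff a.toPS
        + PowerSeries.constantCoeff b.toPS := map_add _ _ _
      have e2 : XSer.ofPS (shift (a + b).toPS) = XSer.ofPS (shift a.toPS)
        + XSer.ofPS (shift b.toPS) := map_add shift _ _
      ext
      · simp only [e1, e2, map_add, LinearMap.add_apply, smul_add, add_smul, Prod.fst_add]
        abel
      · simp)
    (by
      intro c a p
      have e1 : PowerSeries.constantCoeff (c • a).toPS
          = c * PowerSeries.constantCoeff a.toPS := by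
        have := PowerSeries.coeff_smul 0 a.toPS c
        rw [PowerSeries.coeff_zero_eq_constantCoeff_apply,
          PowerSeries.coeff_zero_eq_constantCoeff_apply] at this
        exact this
      have e2 : XSer.ofPS (shift (c • a).toPS) = c • XSer.ofPS (shift a.toPS) :=
        map_smul shift _ _
      ext
      · simp only [e1, e2, map_smul, LinearMap.smul_apply, smul_add, Prod.smul_fst, smul_comm c,
          mul_smul]
      · simp)
    (by
      intro a p q
      ext
      · simp only [map_add, Prod.fst_add, Prod.snd_add, add_smul]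
        abel
      · simp)
    (by
      intro c a p
      ext
      · simp only [map_smul, Prod.smul_fst, Prod.smul_snd, smul_add, smul_assoc]
      · simp)
  act_mul := by
    intro a b p
    have e1 : PowerSeries.constantCoeff (a * b).toPS = 0 := by
      rw [XSer.mul_def]; simp
    have e2 : shift (a * b).toPS = a.toPS * b.toPS := by
      rw [XSer.mul_def, mul_assoc, shift_X_mul]
    have e3 : XSer.ofPS (a.toPS * b.toPS) = (PowerSeries.constantCoeff b.toPS) • a
        + a * XSer.ofPS (shift b.toPS) := by
      show a.toPS * b.toPS = (PowerSeries.constantCoeff b.toPS) • a.toPS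
        + PowerSeries.X * a.toPS * shift b.toPS
      have := X_mul_shift b.toPS
      rw [PowerSeries.smul_eq_C_mul]
      linear_combination (-a.toPS) * this
    ext
    · simp only [LinearMap.mk₂_apply, e1, e2, e3, X.act_mul, map_add, map_smul,
        LinearMap.add_apply, LinearMap.smul_apply, smul_add, zero_smul, smul_zero, zero_add,
        add_zero]
    · simp
  continuous_act := by
    have h := X.frechetSpace
    have := h.isUniformAddGroup
    have := h.continuousSMul
    have c1 : Continuous fun a : XSer => PowerSeries.constantCoeff a.toPS :=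
      PowerSeries.WithPiTopology.continuous_constantCoeff (R := ℂ)
    have c2 : Continuous fun a : XSer => XSer.ofPS (shift a.toPS) := continuous_shift
    simp only [LinearMap.mk₂_apply]
    apply Continuous.prodMk
    · apply Continuous.add
      · exact X.continuous_act.comp (continuous_fst.prodMk (continuous_fst.comp continuous_snd))
      · apply Continuous.smul (continuous_snd.comp continuous_snd)
        apply Continuous.add
        · exact (c1.comp continuous_fst).smul continuous_const
        · exact X.continuous_act.comp ((c2.comp continuous_fst).prodMk continuous_const)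
    · exact continuous_const

/-- the inclusion of `X` in the extension -/
noncomputable def inclN (X : FrechetModule.{u} XSer) (v : X.carrier) :
    X.carrier →L[ℂ] (extN X v).carrier :=
  (ContinuousLinearMap.inl ℂ X.carrier ℂ : X.carrier →L[ℂ] X.carrier × ℂ)

/-- the projection of the extension on `X` -/
noncomputable def projN (X : FrechetModule.{u} XSer) (v : X.carrier) :
    (extN X v).carrier →L[ℂ] X.carrier :=
  (ContinuousLinearMap.fst ℂ X.carrier ℂ : X.carrier × ℂ →L[ℂ] X.carrier)

theorem inclN_morphism (X : FrechetModule.{u} XSer) (v : X.carrier) :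
    IsMorphism (inclN X v) := by
  intro a x
  show ((X.act a x, 0) : X.carrier × ℂ)
    = ((X.act a x + (0 : ℂ) • ((PowerSeries.constantCoeff a.toPS) • v
      + X.act (XSer.ofPS (shift a.toPS)) v), 0) : X.carrier × ℂ)
  simp

/-- the generator of `X ℂ⟦X⟧` -/
noncomputable def XSer.gen : XSer := XSer.ofPS 1

theorem extN_act_gen (X : FrechetModule.{u} XSer) (v : X.carrier) :
    (extN X v).act XSer.gen ((0, 1) : X.carrier × ℂ) = inclN X v v := by
  show ((X.act XSer.gen 0 + (1 : ℂ) • ((PowerSeries.constantCoeff XSer.gen.toPS) • v
      + X.act (XSer.ofPS (shift XSer.gen.toPS)) v), 0) : X.carrier × ℂ)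
    = ((v, 0) : X.carrier × ℂ)
  have e1 : PowerSeries.constantCoeff XSer.gen.toPS = 1 := map_one _
  have e2 : XSer.ofPS (shift XSer.gen.toPS) = 0 := shift_one
  rw [e1, e2]
  simp

theorem nonunital_case (X : FrechetModule.{u} XSer) (hinj : Injective X) :
    Subsingleton X.carrier := by
  have h := X.frechetSpace
  have h1 := h.isUniformAddGroup
  have h2 := h.continuousSMul
  have h3 := h.metrizable
  apply subsingleton_of_surj (X.act XSer.gen)
  · intro v
    obtain ⟨ψ, hψ, hψφ⟩ := hinj (extN X v) trivial (inclN X v) (inclN_morphism X v)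
      ⟨projN X v, fun x => rfl⟩
    have key := hψ XSer.gen ((0, 1) : X.carrier × ℂ)
    exact ⟨_, key.symm.trans ((congrArg ψ (extN_act_gen X v)).trans (hψφ v))⟩
  · intro U hU
    obtain ⟨n, hn⟩ := locally_trivial X.act X.continuous_act
      (fun m => XSer.ofPS (PowerSeries.X ^ m)) small_X_pow U hU
    refine ⟨n + 1, fun x => ?_⟩
    have hpow : ∀ m, (X.act XSer.gen) ^ (m + 1) = X.act (XSer.ofPS (PowerSeries.X ^ m)) := by
      intro m
      induction m with
      | zero =>
        rw [zero_add, pow_one, pow_zero]
        rfl
      | succ m ih =>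
        ext x
        have e : XSer.ofPS (PowerSeries.X ^ (m + 1)) = XSer.gen * XSer.ofPS (PowerSeries.X ^ m) := by
          show (PowerSeries.X : PowerSeries ℂ) ^ (m + 1)
            = PowerSeries.X * 1 * PowerSeries.X ^ m
          ring
        rw [pow_succ', Module.End.mul_apply, ih, e, X.act_mul]
    rw [hpow]
    exact hn n le_rfl x

end Pool.Agent.N796.FrechetMod
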