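import Pool.Agent.N841.LZ.Stm

/-!
# Project LZ (helper841, MP_414bc7_lc): the family `A '' M` is barely independent
-/

set_option autoImplicit false

open Cardinal Set

namespace Pool.Agent.N796.LZFAM

open Pool.Agent.N841.LZ

theorem t_FAM : S_FAM := by
  intro A M hcell hM hF
  have hinj : Set.InjOn A M := by
    intro ξ hξ η hη heq
    by_contra hne
    refine hF {ξ, η} ?_ (fun ζ => ζ = ξ) ?_
    · intro ζ hζ
      rcases Finset.mem_insert.1 hζ with rfl | hζ
      · exact hξ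
      · rw [Finset.mem_singleton.1 hζ]; exact hη
    · have : {α | ∀ ζ ∈ ({ξ, η} : Finset Om), (α ∈ A ζ ↔ ζ = ξ)} = ∅ := by
        ext α
        simp only [Set.mem_ofPred_eq, Set.mem_empty_iff_false, iff_false]
        intro h
        have h1 : α ∈ A ξ := (h ξ (by simp)).2 rfl
        have h2 : η = ξ := (h η (by simp)).1 (heq ▸ h1)
        exact hne h2.symm
      rw [this]
      exact Set.countable_empty
  have hMinf : M.Infinite := fun hfin => hM hfin.countable
  have hcard : #(A '' M) = ℵ₁ := by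
    rw [Cardinal.mk_image_eq_of_injOn _ _ hinj]
    apply le_antisymm
    · calc #M ≤ #Om := Cardinal.mk_set_le M
        _ = ℵ₁ := by rw [Cardinal.mk_ord_toType]
    · rw [← Cardinal.succ_aleph0]
      apply Order.succ_le_of_lt
      rw [← not_le, Cardinal.mk_le_aleph0_iff]
      exact fun h => hM (Set.countable_coe_iff.1 h)
  have himg : ∀ 𝒜 : Set (Set Om), 𝒜 ⊆ A '' M → A '' (M ∩ A ⁻¹' 𝒜) = 𝒜 := by
    intro 𝒜 h𝒜
    ext B
    constructor
    · rintro ⟨ξ, ⟨_, h⟩, rfl⟩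
      exact h
    · intro hB
      obtain ⟨ξ, hξ, rfl⟩ := h𝒜 hB
      exact ⟨ξ, ⟨hξ, hB⟩, rfl⟩
  refine ⟨A '' M, ⟨hMinf.image hinj, ?_, ?_, ?_⟩, hcard⟩
  · rintro _ ⟨ξ, hξ, rfl⟩ hc
    refine hF {ξ} ?_ (fun _ => True) ?_
    · intro ζ hζ
      rw [Finset.mem_singleton.1 hζ]; exact hξ
    · apply hc.mono
      intro α hα
      exact (hα ξ (by simp)).2 trivial
  · intro 𝒜 h𝒜 hfin h hc
    have hΞ : (M ∩ A ⁻¹' 𝒜).Finite := by
      apply Set.Finite.of_finite_image _ (hinj.mono Set.inter_subset_left)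
      rw [himg 𝒜 h𝒜]
      exact hfin
    refine hF hΞ.toFinset ?_ (fun ξ => h (A ξ) = false) ?_
    · intro ξ hξ
      exact ((Set.Finite.mem_toFinset hΞ).1 hξ).1
    · apply hc.mono
      intro α hα B hB
      obtain ⟨ξ, hξ, rfl⟩ := h𝒜 hB
      exact hα ξ ((Set.Finite.mem_toFinset hΞ).2 ⟨hξ, hB⟩)
  · intro 𝒜 h𝒜 _ hinf h
    have hΞ : (M ∩ A ⁻¹' 𝒜).Infinite := by
      intro hfin
      apply hinf
      rw [← himg 𝒜 h𝒜]
      exact hfin.image A
    apply (hcell _ hΞ (fun ξ => h (A ξ) = false)).mono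
    intro α hα ξ hξ
    exact hα (A ξ) hξ.2

end Pool.Agent.N796.LZFAM
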