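import Mathlib

set_option autoImplicit false

open Set Metric Topology

namespace Pool.Agent.N796.OpenMul

/-- Generic perturbation: close to any finite family of complex numbers there is a family of
nonzero numbers no two of which are real-proportional. -/
theorem exists_generic {k : ℕ} (z : Fin k → ℂ) {r : ℝ} (hr : 0 < r) :
    ∃ c : Fin k → ℂ, (∀ j, ‖c j - z j‖ < r) ∧ (∀ j, c j ≠ 0) ∧
      ∀ i j, i ≠ j → (c i * (starRingEnd ℂ) (c j)).im ≠ 0 := by
  classical
  let d : Fin k → ℂ := fun j => 1 + (j : ℕ) * Complex.I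
  let c : ℝ → Fin k → ℂ := fun t j => z j + t * d j
  -- bound on the directions
  obtain ⟨M, hM0, hM⟩ : ∃ M : ℝ, 0 < M ∧ ∀ j, ‖d j‖ ≤ M := by
    refine ⟨1 + k, by positivity, fun j => ?_⟩
    have h1 : ‖d j‖ ≤ ‖(1:ℂ)‖ + ‖((j : ℕ) : ℂ) * Complex.I‖ := norm_add_le _ _
    have h2 : ‖((j : ℕ) : ℂ) * Complex.I‖ = (j : ℕ) := by simp
    have h3 : ((j : ℕ) : ℝ) ≤ k := by exact_mod_cast j.2.le
    rw [h2, norm_one] at h1
    linarith
  have hfin1 : ∀ j, {t : ℝ | c t j = 0}.Finite := by
    intro j
    apply Set.Finite.subset (Set.finite_singleton (-(z j).re))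
    intro t ht
    have : (c t j).re = 0 := by
      have : c t j = 0 := ht
      rw [this]; simp
    simp only [c, d, Complex.add_re, Complex.mul_re, Complex.ofReal_re, Complex.one_re,
      Complex.natCast_re, Complex.I_re, Complex.natCast_im, Complex.I_im, Complex.ofReal_im] at this
    simp only [mem_singleton_iff]
    linarith
  have hfin2 : ∀ i j, i ≠ j → {t : ℝ | (c t i * (starRingEnd ℂ) (c t j)).im = 0}.Finite := by
    intro i j hij
    have hD : ((i : ℕ) : ℝ) - ((j : ℕ) : ℝ) ≠ 0 := by
      intro h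
      apply hij
      have : ((i : ℕ) : ℝ) = ((j : ℕ) : ℝ) := by linarith
      have : (i : ℕ) = (j : ℕ) := by exact_mod_cast this
      exact Fin.ext this
    -- quadratic polynomial
    let P : Polynomial ℝ := Polynomial.C (((i : ℕ) : ℝ) - ((j : ℕ) : ℝ)) * Polynomial.X ^ 2
      + Polynomial.C (((z i).im + ((i : ℕ) : ℝ) * (z j).re) - ((z j).im + (z i).re * ((j : ℕ) : ℝ)))
          * Polynomial.X
      + Polynomial.C ((z i).im * (z j).re - (z i).re * (z j).im)
    have hP : P ≠ 0 := by
      intro h
      have h2 : P.coeff 2 = ((i : ℕ) : ℝ) - ((j : ℕ) : ℝ) := by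
        simp only [P, Polynomial.coeff_add, Polynomial.coeff_C_mul, Polynomial.coeff_X_pow,
          Polynomial.coeff_X, Polynomial.coeff_C]
        norm_num
      rw [h, Polynomial.coeff_zero] at h2
      exact hD h2.symm
    apply Set.Finite.subset (Polynomial.finite_setOfPred_isRoot hP)
    intro t ht
    have ht' : (c t i * (starRingEnd ℂ) (c t j)).im = 0 := ht
    simp only [c, d, map_add, map_mul, Complex.add_re, Complex.mul_re, Complex.ofReal_re, Complex.one_re,
      Complex.natCast_re, Complex.I_re, Complex.natCast_im, Complex.I_im, Complex.ofReal_im,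
      Complex.mul_im, Complex.add_im, Complex.conj_re, Complex.conj_im, Complex.one_im] at ht'
    show P.eval t = 0
    simp only [P, Polynomial.eval_add, Polynomial.eval_mul, Polynomial.eval_C, Polynomial.eval_X,
      Polynomial.eval_pow]
    nlinarith [ht']
  let B : Set ℝ := (⋃ j, {t : ℝ | c t j = 0}) ∪
    ⋃ i, ⋃ j, ⋃ (_ : i ≠ j), {t : ℝ | (c t i * (starRingEnd ℂ) (c t j)).im = 0}
  have hB : B.Finite := by
    apply Set.Finite.union
    · exact Set.finite_iUnion hfin1
    · refine Set.finite_iUnion fun i => Set.finite_iUnion fun j => Set.finite_iUnion fun h => hfin2 i j h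
  have hpos : 0 < r / M := div_pos hr hM0
  obtain ⟨t, ht, htB⟩ := ((Set.Ioo_infinite hpos).sdiff hB).nonempty
  refine ⟨c t, fun j => ?_, fun j hj => htB ?_, fun i j hij h => htB ?_⟩
  · have : c t j - z j = t * d j := by simp [c]
    rw [this, norm_mul, Complex.norm_real, Real.norm_of_nonneg ht.1.le]
    calc t * ‖d j‖ ≤ t * M := mul_le_mul_of_nonneg_left (hM j) ht.1.le
      _ < (r / M) * M := mul_lt_mul_of_pos_right ht.2 hM0
      _ = r := by field_simp
  · exact Or.inl (mem_iUnion.2 ⟨j, hj⟩)
  · exact Or.inr (mem_iUnion.2 ⟨i, mem_iUnion.2 ⟨j, mem_iUnion.2 ⟨hij, h⟩⟩⟩)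

/-- The Lebesgue covering dimension of `X` is at most `n`: every finite open cover of `X` has a
finite open refinement covering `X` such that no point lies in more than `n + 1` of its members. -/
def CoveringDimLE (X : Type*) [TopologicalSpace X] (n : ℕ) : Prop :=
  ∀ (m : ℕ) (U : Fin m → Set X), (∀ i, IsOpen (U i)) → (⋃ i, U i) = univ →
    ∃ (k : ℕ) (V : Fin k → Set X), (∀ j, IsOpen (V j)) ∧ (⋃ j, V j) = univ ∧
      (∀ j, ∃ i, V j ⊆ U i) ∧ ∀ s : Finset (Fin k), n + 1 < s.card → (⋂ j ∈ s, V j) = ∅

/-- In a compact Hausdorff space of covering dimension at most one the nowhere vanishing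
functions are dense in `C(X, ℂ)`. -/
theorem exists_nonvanishing {X : Type*} [TopologicalSpace X] [CompactSpace X] [T2Space X]
    (hdim : CoveringDimLE X 1) (f : C(X, ℂ)) {r : ℝ} (hr : 0 < r) :
    ∃ g : C(X, ℂ), (∀ x, g x ≠ 0) ∧ ∀ x, ‖g x - f x‖ ≤ r := by
  classical
  -- finite cover by sets of small oscillation
  obtain ⟨t, ht⟩ : ∃ t : Finset X, (⋃ x ∈ t, f ⁻¹' ball (f x) (r / 4)) = univ := by
    have := isCompact_univ (X := X).elim_finite_subcover (fun x : X => f ⁻¹' ball (f x) (r / 4))
      (fun x => isOpen_ball.preimage f.continuous)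
      (fun x _ => mem_iUnion.2 ⟨x, mem_ball_self (by positivity)⟩)
    obtain ⟨t, ht⟩ := this
    exact ⟨t, eq_univ_of_univ_subset ht⟩
  let e := t.equivFin
  obtain ⟨k, V, hVo, hVc, hVr, hVd⟩ := hdim t.card
    (fun i => f ⁻¹' ball (f ((e.symm i : t) : X)) (r / 4))
    (fun i => isOpen_ball.preimage f.continuous) (by
      rw [eq_univ_iff_forall]
      intro x
      have hx : x ∈ (⋃ x ∈ t, f ⁻¹' ball (f x) (r / 4)) := by rw [ht]; trivial
      simp only [mem_iUnion] at hx ⊢
      obtain ⟨y, hy, hxy⟩ := hx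
      refine ⟨e ⟨y, hy⟩, ?_⟩
      simpa using hxy)
  choose i hi using hVr
  obtain ⟨c, hc1, hc0, hc2⟩ := exists_generic (fun j : Fin k => f ((e.symm (i j) : t) : X))
    (r := r / 4) (by positivity)
  obtain ⟨φ, hφ⟩ := PartitionOfUnity.exists_isSubordinate (X := X) (s := univ) isClosed_univ V hVo
    (by rw [hVc])
  have hsum : ∀ x, ∑ j, φ j x = 1 := by
    intro x
    have := φ.sum_eq_one (mem_univ x)
    rwa [finsum_eq_sum_of_fintype] at this
  have hnn : ∀ j x, 0 ≤ φ j x := fun j x => φ.nonneg j x
  have hsupp : ∀ j x, φ j x ≠ 0 → x ∈ V j := by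
    intro j x hx
    exact hφ j (subset_tsupport _ hx)
  let g : C(X, ℂ) := ⟨fun x => ∑ j, (φ j x : ℂ) * c j, by
    refine continuous_finsetSum _ fun j _ => ?_
    exact (Complex.continuous_ofReal.comp (φ j).continuous).mul continuous_const⟩
  refine ⟨g, fun x hx => ?_, fun x => ?_⟩
  · -- nonvanishing
    let S : Finset (Fin k) := Finset.univ.filter fun j => φ j x ≠ 0
    have hcard : S.card ≤ 2 := by
      by_contra h
      push Not at h
      have h1 := hVd S (by omega)
      have : x ∈ (⋂ j ∈ S, V j) := by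
        simp only [mem_iInter]
        intro j hj
        exact hsupp j x (by simpa [S] using hj)
      rw [h1] at this
      exact this
    have hS1 : ∑ j ∈ S, φ j x = 1 := by
      rw [← hsum x]
      apply Finset.sum_subset (Finset.subset_univ _)
      intro j _ hj
      by_contra h
      exact hj (by simp [S, h])
    have hS2 : ∑ j ∈ S, (φ j x : ℂ) * c j = 0 := by
      have : g x = ∑ j, (φ j x : ℂ) * c j := rfl
      rw [← hx, this]
      apply Finset.sum_subset (Finset.subset_univ _)
      intro j _ hj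
      by_contra h
      apply hj
      simp only [S, Finset.mem_filter, Finset.mem_univ, true_and]
      intro h0
      exact h (by rw [h0]; simp)
    interval_cases hc : S.card
    · rw [Finset.card_eq_zero] at hc
      rw [hc] at hS1
      simp at hS1
    · rw [Finset.card_eq_one] at hc
      obtain ⟨j, hj⟩ := hc
      rw [hj] at hS1 hS2
      simp only [Finset.sum_singleton] at hS1 hS2
      rw [hS1] at hS2
      simp at hS2
      exact hc0 j hS2
    · rw [Finset.card_eq_two] at hc
      obtain ⟨p, q, hpq, hj⟩ := hc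
      rw [hj] at hS1 hS2
      rw [Finset.sum_pair hpq] at hS1 hS2
      have h3 : φ p x * (c p * (starRingEnd ℂ) (c q)).im = 0 := by
        have h4 := congrArg (fun w => (w * (starRingEnd ℂ) (c q)).im) hS2
        simp only [zero_mul, Complex.zero_im] at h4
        rw [← h4]
        simp only [add_mul, Complex.add_im, mul_assoc]
        rw [Complex.im_ofReal_mul, Complex.im_ofReal_mul, Complex.mul_conj, Complex.ofReal_im]
        ring
      rcases mul_eq_zero.1 h3 with h4 | h4
      · have : p ∈ S := by rw [hj]; simp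
        simp only [S, Finset.mem_filter, Finset.mem_univ, true_and] at this
        exact this h4
      · exact hc2 p q hpq h4
  · -- closeness
    have h1 : g x - f x = ∑ j, (φ j x : ℂ) * (c j - f x) := by
      have h2 : (∑ j, (φ j x : ℂ)) = 1 := by
        have := hsum x
        exact_mod_cast this
      have : g x = ∑ j, (φ j x : ℂ) * c j := rfl
      rw [this]
      simp only [mul_sub, Finset.sum_sub_distrib, ← Finset.sum_mul, h2, one_mul]
    rw [h1]
    calc ‖∑ j, (φ j x : ℂ) * (c j - f x)‖ ≤ ∑ j, ‖(φ j x : ℂ) * (c j - f x)‖ := norm_sum_le _ _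
      _ ≤ ∑ j, φ j x * r := by
          apply Finset.sum_le_sum
          intro j _
          rw [norm_mul, Complex.norm_real, Real.norm_of_nonneg (hnn j x)]
          by_cases h0 : φ j x = 0
          · rw [h0]; simp
          · apply mul_le_mul_of_nonneg_left _ (hnn j x)
            have hxV := hi j (hsupp j x h0)
            have h5 : ‖f x - f ((e.symm (i j) : t) : X)‖ < r / 4 := by
              have : f x ∈ ball (f ((e.symm (i j) : t) : X)) (r / 4) := hxV
              rwa [mem_ball, dist_eq_norm] at this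
            have h6 := hc1 j
            calc ‖c j - f x‖ = ‖(c j - f ((e.symm (i j) : t) : X)) - (f x - f ((e.symm (i j) : t) : X))‖ := by
                  congr 1; ring
              _ ≤ ‖c j - f ((e.symm (i j) : t) : X)‖ + ‖f x - f ((e.symm (i j) : t) : X)‖ := norm_sub_le _ _
              _ ≤ r := by linarith
      _ = r := by rw [← Finset.sum_mul, hsum x, one_mul]

/-- Extension property: every unimodular continuous function on a closed set extends. -/
theorem exists_extension {X : Type*} [TopologicalSpace X] [CompactSpace X] [T2Space X]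
    (hdim : CoveringDimLE X 1) {A : Set X} (hA : IsClosed A) (u : X → ℂ) (hu : ContinuousOn u A)
    (hu1 : ∀ x ∈ A, ‖u x‖ = 1) :
    ∃ U : C(X, ℂ), (∀ x, ‖U x‖ = 1) ∧ ∀ x ∈ A, U x = u x := by
  classical
  obtain ⟨F, hF⟩ := ContinuousMap.exists_restrict_eq hA
    (⟨fun x : A => u x, continuousOn_iff_continuous_domRestrict.1 hu⟩ : C(A, ℂ))
  have hF' : ∀ x ∈ A, F x = u x := by
    intro x hx
    exact congrArg (fun (φ : C(A, ℂ)) => φ ⟨x, hx⟩) hF
  obtain ⟨g, hg0, hg⟩ := exists_nonvanishing hdim F (r := 1 / 4) (by norm_num)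
  -- u / g is near one on A
  have hre : ∀ x ∈ A, 0 < (u x / g x).re := by
    intro x hx
    have h1 : ‖g x - u x‖ ≤ 1 / 4 := by rw [← hF' x hx]; exact hg x
    have h2 : ‖u x‖ = 1 := hu1 x hx
    have h3 : ‖g x‖ ≥ 3 / 4 := by
      have := norm_sub_norm_le (u x) (g x)
      rw [norm_sub_rev] at this
      linarith
    have h4 : ‖u x / g x - 1‖ < 1 := by
      have : u x / g x - 1 = (u x - g x) / g x := by
        field_simp [hg0 x]
      rw [this, norm_div, div_lt_one (by linarith), norm_sub_rev]
      linarith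
    have h5 := (abs_le.1 (Complex.abs_re_le_norm (u x / g x - 1))).1
    simp only [Complex.sub_re, Complex.one_re] at h5
    linarith
  have hcont : ContinuousOn (fun x => Complex.log (u x / g x)) A := by
    apply ContinuousOn.clog
    · exact hu.div g.continuous.continuousOn fun x _ => hg0 x
    · intro x hx
      exact Or.inl (hre x hx)
  obtain ⟨L, hL⟩ := ContinuousMap.exists_restrict_eq hA
    (⟨fun x : A => Complex.log (u x / g x), continuousOn_iff_continuous_domRestrict.1 hcont⟩ : C(A, ℂ))
  have hL' : ∀ x ∈ A, L x = Complex.log (u x / g x) := by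
    intro x hx
    exact congrArg (fun (φ : C(A, ℂ)) => φ ⟨x, hx⟩) hL
  let G : X → ℂ := fun x => g x * Complex.exp (L x)
  have hG0 : ∀ x, G x ≠ 0 := fun x => mul_ne_zero (hg0 x) (Complex.exp_ne_zero _)
  have hGc : Continuous G := g.continuous.mul (Complex.continuous_exp.comp L.continuous)
  have hGA : ∀ x ∈ A, G x = u x := by
    intro x hx
    have hux : u x ≠ 0 := by
      intro h
      have := hu1 x hx
      rw [h, norm_zero] at this
      norm_num at this
    show g x * Complex.exp (L x) = u x
    rw [hL' x hx, Complex.exp_log (div_ne_zero hux (hg0 x))]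
    field_simp [hg0 x]
  refine ⟨⟨fun x => G x / (‖G x‖ : ℂ), ?_⟩, fun x => ?_, fun x hx => ?_⟩
  · apply hGc.div (Complex.continuous_ofReal.comp hGc.norm)
    intro x
    simpa using hG0 x
  · show ‖G x / (‖G x‖ : ℂ)‖ = 1
    rw [norm_div, Complex.norm_real, norm_norm, div_self]
    simpa using hG0 x
  · show G x / (‖G x‖ : ℂ) = u x
    rw [hGA x hx, hu1 x hx]
    simp

end Pool.Agent.N796.OpenMul
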