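import Pool.Agent.N796.OpenMulA

set_option autoImplicit false

open Set Metric Topology

namespace Pool.Agent.N796.OpenMul

/-- Extension of unimodular functions over a cozero set, prescribed on a relatively closed set. -/
theorem exists_extension_cozero {X : Type*} [TopologicalSpace X] [CompactSpace X] [T2Space X]
    (hdim : CoveringDimLE X 1) (h : X → ℝ) (hc : Continuous h) (C : Set X) (f : X → ℂ)
    (hC : ∀ r : ℝ, 0 < r → IsClosed (C ∩ {x | r ≤ h x}))
    (hf : ∀ r : ℝ, 0 < r → ContinuousOn f (C ∩ {x | r ≤ h x}))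
    (hf1 : ∀ x ∈ C, 0 < h x → ‖f x‖ = 1) :
    ∃ ω : X → ℂ, (∀ x, ‖ω x‖ = 1) ∧ (∀ x ∈ C, 0 < h x → ω x = f x) ∧
      ∀ x, 0 < h x → ContinuousAt ω x := by
  classical
  let K : ℕ → Set X := fun n => {x | (1 : ℝ) / (n + 1) ≤ h x}
  have hr : ∀ n : ℕ, (0 : ℝ) < 1 / (n + 1) := fun n => Nat.one_div_pos_of_nat
  have hKc : ∀ n, IsClosed (K n) := fun n => isClosed_le continuous_const hc
  have hKmono : ∀ n m, n ≤ m → K n ⊆ K m := by
    intro n m hnm x hx
    have hx' : (1 : ℝ) / (n + 1) ≤ h x := hx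
    show (1 : ℝ) / (m + 1) ≤ h x
    exact le_trans (Nat.one_div_le_one_div hnm) hx'
  let P : ℕ → C(X, ℂ) → Prop := fun n φ => (∀ x, ‖φ x‖ = 1) ∧ ∀ x ∈ C ∩ K n, φ x = f x
  have hbase : ∃ φ, P 0 φ := by
    obtain ⟨U, hU1, hU2⟩ := exists_extension hdim (hC _ (hr 0)) f (hf _ (hr 0))
      (fun x hx => hf1 x hx.1 (lt_of_lt_of_le (hr 0) hx.2))
    exact ⟨U, hU1, hU2⟩
  have hstep : ∀ n φ, P n φ → ∃ ψ, P (n + 1) ψ ∧ ∀ x ∈ K n, ψ x = φ x := by
    intro n φ hφ
    have hcont : ContinuousOn (fun x => if x ∈ K n then φ x else f x)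
        (K n ∪ (C ∩ K (n + 1))) := by
      apply ContinuousOn.union_of_isClosed
      · apply φ.continuous.continuousOn.congr
        intro x hx
        simp [hx]
      · apply (hf _ (hr (n + 1))).congr
        intro x hx
        by_cases hxn : x ∈ K n
        · simp only [hxn, if_true]
          exact hφ.2 x ⟨hx.1, hxn⟩
        · simp [hxn]
      · exact hKc n
      · exact hC _ (hr (n + 1))
    obtain ⟨U, hU1, hU2⟩ := exists_extension hdim ((hKc n).union (hC _ (hr (n + 1))))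
      (fun x => if x ∈ K n then φ x else f x) hcont (by
        intro x hx
        by_cases hxn : x ∈ K n
        · simp only [hxn, if_true]
          exact hφ.1 x
        · simp only [hxn, if_false]
          rcases hx with hx | hx
          · exact absurd hx hxn
          · exact hf1 x hx.1 (lt_of_lt_of_le (hr (n + 1)) hx.2))
    refine ⟨U, ⟨hU1, fun x hx => ?_⟩, fun x hx => ?_⟩
    · rw [hU2 x (Or.inr hx)]
      by_cases hxn : x ∈ K n
      · simp only [hxn, if_true]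
        exact hφ.2 x ⟨hx.1, hxn⟩
      · simp [hxn]
    · rw [hU2 x (Or.inl hx)]
      simp [hx]
  choose! next hnext1 hnext2 using hstep
  obtain ⟨φ0, hφ0⟩ := hbase
  let Φ : ℕ → C(X, ℂ) := fun n => Nat.rec φ0 (fun n φ => next n φ) n
  have hΦ0 : Φ 0 = φ0 := rfl
  have hΦs : ∀ n, Φ (n + 1) = next n (Φ n) := fun n => rfl
  have hΦP : ∀ n, P n (Φ n) := by
    intro n
    induction n with
    | zero => exact hφ0
    | succ n ih => rw [hΦs]; exact hnext1 n _ ih
  have hΦK : ∀ n m, n ≤ m → ∀ x ∈ K n, Φ m x = Φ n x := by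
    intro n m hnm
    induction m, hnm using Nat.le_induction with
    | base => intro x _; rfl
    | succ m hnm ih =>
      intro x hx
      rw [hΦs, hnext2 m _ (hΦP m) x (hKmono n m hnm hx), ih x hx]
  let N : X → ℕ := fun x => if hx : ∃ n, x ∈ K n then Nat.find hx else 0
  have hN : ∀ n, ∀ x ∈ K n, Φ (N x) x = Φ n x := by
    intro n x hx
    have hex : ∃ n, x ∈ K n := ⟨n, hx⟩
    have h1 : N x = Nat.find hex := by simp only [N, hex, dif_pos]
    rw [h1]
    exact (hΦK _ _ (Nat.find_min' hex hx) x (Nat.find_spec hex)).symm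
  refine ⟨fun x => Φ (N x) x, fun x => (hΦP _).1 x, fun x hx hpos => ?_, fun x hpos => ?_⟩
  · obtain ⟨n, hn⟩ := exists_nat_one_div_lt hpos
    show Φ (N x) x = f x
    rw [hN n x hn.le]
    exact (hΦP n).2 x ⟨hx, hn.le⟩
  · obtain ⟨n, hn⟩ := exists_nat_one_div_lt hpos
    have hopen : {y | (1 : ℝ) / (n + 1) < h y} ∈ 𝓝 x :=
      (isOpen_lt continuous_const hc).mem_nhds hn
    apply ((Φ n).continuous.continuousAt (x := x)).congr
    filter_upwards [hopen] with y hy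
    exact (hN n y (le_of_lt hy)).symm

theorem norm_div_norm_sub_le {x y : ℂ} (hy : y ≠ 0) (hx : x ≠ 0) :
    ‖x / (‖x‖ : ℂ) - y / (‖y‖ : ℂ)‖ ≤ 2 * ‖x - y‖ / ‖y‖ := by
  have hx' : 0 < ‖x‖ := norm_pos_iff.2 hx
  have hy' : 0 < ‖y‖ := norm_pos_iff.2 hy
  have hxc : (‖x‖ : ℂ) ≠ 0 := by exact_mod_cast hx'.ne'
  have hyc : (‖y‖ : ℂ) ≠ 0 := by exact_mod_cast hy'.ne'
  have h1 : x / (‖x‖ : ℂ) - y / (‖y‖ : ℂ)
      = (x - y) / (‖y‖ : ℂ) + (x / (‖x‖ : ℂ)) * (((‖y‖ - ‖x‖ : ℝ) : ℂ) / (‖y‖ : ℂ)) := by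
    push_cast
    field_simp
    ring
  rw [h1]
  refine (norm_add_le _ _).trans ?_
  rw [norm_div, norm_mul, norm_div, norm_div, Complex.norm_real, Complex.norm_real,
    Complex.norm_real, norm_norm, norm_norm, div_self hx'.ne', one_mul, ← add_div]
  apply div_le_div_of_nonneg_right _ hy'.le
  have h2 : ‖(‖y‖ - ‖x‖ : ℝ)‖ ≤ ‖x - y‖ := by
    rw [norm_sub_rev, Real.norm_eq_abs]
    exact abs_norm_sub_norm_le x y
  linarith

/-- Real-variable estimate for the moduli. -/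
theorem moduli_estimate {A B H η D : ℝ} (hA : 0 ≤ A) (hB : 0 ≤ B) (hη : 0 < η)
    (hH : |H - A * B| ≤ η ^ 2 / 16) (hD : 0 ≤ D) (hD2 : D ^ 2 = (A - B) ^ 2 + 4 * H) :
    |(D + (A - B)) / 2 - A| ≤ η / 4 ∧ |(D - (A - B)) / 2 - B| ≤ η / 4 := by
  have h1 : (D - (A + B)) ^ 2 ≤ |D ^ 2 - (A + B) ^ 2| := by
    have : D ^ 2 - (A + B) ^ 2 = (D - (A + B)) * (D + (A + B)) := by ring
    rw [this, abs_mul, ← sq_abs (D - (A + B)), sq]
    apply mul_le_mul_of_nonneg_left _ (abs_nonneg _)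
    rw [abs_of_nonneg (by positivity : 0 ≤ D + (A + B))]
    rw [abs_le]
    constructor <;> linarith
  have h2 : |D ^ 2 - (A + B) ^ 2| ≤ η ^ 2 / 4 := by
    have : D ^ 2 - (A + B) ^ 2 = 4 * (H - A * B) := by rw [hD2]; ring
    rw [this, abs_mul, abs_of_pos (by norm_num : (0:ℝ) < 4)]
    linarith
  have h3 : |D - (A + B)| ≤ η / 2 := by
    apply abs_le_of_sq_le_sq _ (by positivity)
    nlinarith
  have h4 := abs_le.1 h3
  constructor
  · rw [abs_le]; constructor <;> linarith [h4.1, h4.2]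
  · rw [abs_le]; constructor <;> linarith [h4.1, h4.2]

end Pool.Agent.N796.OpenMul
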