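import Pool.Agent.N796.OpenMulB

set_option autoImplicit false

open Set Metric Topology

namespace Pool.Agent.N796.OpenMul

/-- The factorization theorem, pointwise form. -/
theorem exists_factorization {X : Type*} [TopologicalSpace X] [CompactSpace X] [T2Space X]
    (hdim : CoveringDimLE X 1) (a b h : C(X, ℂ)) {η : ℝ} (hη : 0 < η)
    (hh : ∀ x, ‖h x - a x * b x‖ ≤ η ^ 2 / 16) :
    ∃ a' b' : C(X, ℂ), (∀ x, a' x * b' x = h x) ∧ (∀ x, ‖a' x - a x‖ ≤ 3 * η) ∧
      ∀ x, ‖b' x - b x‖ ≤ 3 * η := by
  classical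
  -- moduli
  let D : X → ℝ := fun x => Real.sqrt ((‖a x‖ - ‖b x‖) ^ 2 + 4 * ‖h x‖)
  have hDc : Continuous D := by
    apply Real.continuous_sqrt.comp
    exact ((a.continuous.norm.sub b.continuous.norm).pow 2).add
      (continuous_const.mul h.continuous.norm)
  have hD0 : ∀ x, 0 ≤ D x := fun x => Real.sqrt_nonneg _
  have hD2 : ∀ x, D x ^ 2 = (‖a x‖ - ‖b x‖) ^ 2 + 4 * ‖h x‖ := fun x =>
    Real.sq_sqrt (by positivity)
  have hDge : ∀ x, |‖a x‖ - ‖b x‖| ≤ D x := by
    intro x
    apply abs_le_of_sq_le_sq _ (hD0 x)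
    rw [hD2 x]
    have := norm_nonneg (h x)
    linarith
  let α : X → ℝ := fun x => (D x + (‖a x‖ - ‖b x‖)) / 2
  let β : X → ℝ := fun x => (D x - (‖a x‖ - ‖b x‖)) / 2
  have hαc : Continuous α := (hDc.add (a.continuous.norm.sub b.continuous.norm)).div_const 2
  have hβc : Continuous β := (hDc.sub (a.continuous.norm.sub b.continuous.norm)).div_const 2
  have hα0 : ∀ x, 0 ≤ α x := by
    intro x
    have := (abs_le.1 (hDge x)).1
    show 0 ≤ (D x + (‖a x‖ - ‖b x‖)) / 2
    linarith
  have hβ0 : ∀ x, 0 ≤ β x := by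
    intro x
    have := (abs_le.1 (hDge x)).2
    show 0 ≤ (D x - (‖a x‖ - ‖b x‖)) / 2
    linarith
  have hαβ : ∀ x, α x * β x = ‖h x‖ := by
    intro x
    show (D x + (‖a x‖ - ‖b x‖)) / 2 * ((D x - (‖a x‖ - ‖b x‖)) / 2) = ‖h x‖
    have := hD2 x
    nlinarith
  have hαsβ : ∀ x, α x - β x = ‖a x‖ - ‖b x‖ := by
    intro x
    show (D x + (‖a x‖ - ‖b x‖)) / 2 - (D x - (‖a x‖ - ‖b x‖)) / 2 = ‖a x‖ - ‖b x‖
    ring
  have hest : ∀ x, |α x - ‖a x‖| ≤ η / 4 ∧ |β x - ‖b x‖| ≤ η / 4 := by
    intro x
    apply moduli_estimate (norm_nonneg _) (norm_nonneg _) hη (H := ‖h x‖) _ (hD0 x) (hD2 x)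
    rw [← norm_mul]
    exact (abs_norm_sub_norm_le _ _).trans (hh x)
  -- base phases
  have hphase : ∀ c : C(X, ℂ), ∃ U : C(X, ℂ), (∀ x, ‖U x‖ = 1) ∧
      ∀ x, η / 2 ≤ ‖c x‖ → c x = ‖c x‖ * U x := by
    intro c
    have hcl : IsClosed {x | η / 2 ≤ ‖c x‖} := isClosed_le continuous_const c.continuous.norm
    have hne : ∀ x ∈ {x | η / 2 ≤ ‖c x‖}, ‖c x‖ ≠ 0 := by
      intro x hx h0
      have : η / 2 ≤ ‖c x‖ := hx
      rw [h0] at this
      linarith
    obtain ⟨U, hU1, hU2⟩ := exists_extension hdim hcl (fun x => c x / (‖c x‖ : ℂ)) (by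
      apply c.continuous.continuousOn.div
      · exact (Complex.continuous_ofReal.comp c.continuous.norm).continuousOn
      · intro x hx
        exact_mod_cast hne x hx) (by
      intro x hx
      rw [norm_div, Complex.norm_real, norm_norm, div_self (hne x hx)])
    refine ⟨U, hU1, fun x hx => ?_⟩
    rw [hU2 x hx]
    have : (‖c x‖ : ℂ) ≠ 0 := by exact_mod_cast hne x hx
    field_simp
  obtain ⟨u₀, hu₀, hau⟩ := hphase a
  obtain ⟨v₀, hv₀, hbv⟩ := hphase b
  have hu₀0 : ∀ x, u₀ x ≠ 0 := fun x h0 => by
    have := hu₀ x; rw [h0, norm_zero] at this; norm_num at this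
  have hv₀0 : ∀ x, v₀ x ≠ 0 := fun x h0 => by
    have := hv₀ x; rw [h0, norm_zero] at this; norm_num at this
  -- the remaining phase
  let w : X → ℂ := fun x => h x / (‖h x‖ * (u₀ x * v₀ x))
  let t : X → ℝ := fun x => min ‖h x‖ (η / 2)
  let s : X → ℝ := fun x => max 0 (min 1 ((t x + ‖b x‖ - ‖a x‖) / (2 * t x)))
  let f : X → ℂ := fun x => Complex.exp (s x * Complex.log (w x))
  have htc : Continuous t := h.continuous.norm.min continuous_const
  have htpos : ∀ x, 0 < ‖h x‖ → 0 < t x := fun x hx => lt_min hx (by positivity)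
  have hw1 : ∀ x, 0 < ‖h x‖ → ‖w x‖ = 1 := by
    intro x hx
    show ‖h x / (‖h x‖ * (u₀ x * v₀ x))‖ = 1
    rw [norm_div, norm_mul, norm_mul, Complex.norm_real, norm_norm, hu₀, hv₀, mul_one, mul_one,
      div_self hx.ne']
  have hwc : ∀ x, 0 < ‖h x‖ → ContinuousAt w x := by
    intro x hx
    apply h.continuous.continuousAt.div
    · exact ((Complex.continuous_ofReal.comp h.continuous.norm).mul
        (u₀.continuous.mul v₀.continuous)).continuousAt
    · refine mul_ne_zero ?_ (mul_ne_zero (hu₀0 x) (hv₀0 x))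
      exact_mod_cast hx.ne'
  have hf1 : ∀ x, 0 < ‖h x‖ → ‖f x‖ = 1 := by
    intro x hx
    show ‖Complex.exp (s x * Complex.log (w x))‖ = 1
    rw [Complex.norm_exp, Complex.re_ofReal_mul, Complex.log_re, hw1 x hx]
    simp
  let F₁ : Set X := {x | ‖b x‖ + t x ≤ ‖a x‖}
  let F₂ : Set X := {x | ‖a x‖ + t x ≤ ‖b x‖}
  let F₃ : Set X := {x | η / 2 ≤ ‖a x‖} ∩ {x | η / 2 ≤ ‖b x‖}
  have hF₁ : IsClosed F₁ := isClosed_le (b.continuous.norm.add htc) a.continuous.norm
  have hF₂ : IsClosed F₂ := isClosed_le (a.continuous.norm.add htc) b.continuous.norm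
  have hF₃ : IsClosed F₃ := (isClosed_le continuous_const a.continuous.norm).inter
    (isClosed_le continuous_const b.continuous.norm)
  have hs1 : ∀ x ∈ F₁, 0 < ‖h x‖ → s x = 0 := by
    intro x hx hpos
    have ht := htpos x hpos
    have hx' : ‖b x‖ + t x ≤ ‖a x‖ := hx
    have : (t x + ‖b x‖ - ‖a x‖) / (2 * t x) ≤ 0 :=
      div_nonpos_of_nonpos_of_nonneg (by linarith) (by linarith)
    show max 0 (min 1 ((t x + ‖b x‖ - ‖a x‖) / (2 * t x))) = 0
    exact max_eq_left (min_le_of_right_le this)
  have hs2 : ∀ x ∈ F₂, 0 < ‖h x‖ → s x = 1 := by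
    intro x hx hpos
    have ht := htpos x hpos
    have hx' : ‖a x‖ + t x ≤ ‖b x‖ := hx
    have : 1 ≤ (t x + ‖b x‖ - ‖a x‖) / (2 * t x) := by
      rw [le_div_iff₀ (by linarith)]
      linarith
    show max 0 (min 1 ((t x + ‖b x‖ - ‖a x‖) / (2 * t x))) = 1
    rw [min_eq_left this]
    exact max_eq_right zero_le_one
  have hf_1 : ∀ x ∈ F₁, 0 < ‖h x‖ → f x = 1 := by
    intro x hx hpos
    show Complex.exp (s x * Complex.log (w x)) = 1
    rw [hs1 x hx hpos]; simp
  have hw0 : ∀ x, 0 < ‖h x‖ → w x ≠ 0 := by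
    intro x hx h0
    have := hw1 x hx
    rw [h0, norm_zero] at this
    norm_num at this
  have hf_2 : ∀ x ∈ F₂, 0 < ‖h x‖ → f x = w x := by
    intro x hx hpos
    show Complex.exp (s x * Complex.log (w x)) = w x
    rw [hs2 x hx hpos, Complex.ofReal_one, one_mul, Complex.exp_log (hw0 x hpos)]
  -- on F₃ : h ≠ 0 and w is close to 1
  have hF3 : ∀ x ∈ F₃, 0 < ‖h x‖ ∧ ‖w x - 1‖ ≤ 2 * (η ^ 2 / 16) / (‖a x‖ * ‖b x‖) ∧
      ‖w x - 1‖ ≤ 1 / 2 := by
    intro x hx
    have ha : η / 2 ≤ ‖a x‖ := hx.1
    have hb : η / 2 ≤ ‖b x‖ := hx.2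
    have ha0 : 0 < ‖a x‖ := by linarith
    have hb0 : 0 < ‖b x‖ := by linarith
    have hab : η ^ 2 / 4 ≤ ‖a x‖ * ‖b x‖ := by nlinarith
    have hpos : 0 < ‖h x‖ := by
      have h1 := norm_sub_norm_le (a x * b x) (h x)
      rw [norm_sub_rev, norm_mul] at h1
      have h2 := hh x
      have : 0 < η ^ 2 := by positivity
      linarith
    have hab0 : a x * b x ≠ 0 := mul_ne_zero (norm_pos_iff.1 ha0) (norm_pos_iff.1 hb0)
    have hw' : w x - 1 = (h x / (‖h x‖ : ℂ) - (a x * b x) / (‖a x * b x‖ : ℂ)) / (u₀ x * v₀ x) := by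
      have e1 : (a x * b x) / (‖a x * b x‖ : ℂ) = u₀ x * v₀ x := by
        rw [norm_mul]
        push_cast
        have e2 : (‖a x‖ : ℂ) ≠ 0 := by exact_mod_cast ha0.ne'
        have e3 : (‖b x‖ : ℂ) ≠ 0 := by exact_mod_cast hb0.ne'
        rw [div_eq_iff (mul_ne_zero e2 e3)]
        calc a x * b x = (‖a x‖ * u₀ x) * (‖b x‖ * v₀ x) := by
              rw [← hau x ha, ← hbv x hb]
          _ = _ := by ring
      rw [e1]
      have e4 : (‖h x‖ : ℂ) ≠ 0 := by exact_mod_cast hpos.ne'
      have := hu₀0 x
      have := hv₀0 x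
      show h x / (‖h x‖ * (u₀ x * v₀ x)) - 1 = _
      field_simp
    have hw2 : ‖w x - 1‖ ≤ 2 * (η ^ 2 / 16) / (‖a x‖ * ‖b x‖) := by
      have huv : ‖u₀ x * v₀ x‖ = 1 := by rw [norm_mul, hu₀, hv₀, mul_one]
      rw [hw', norm_div, huv, div_one]
      refine (norm_div_norm_sub_le hab0 (norm_pos_iff.1 hpos)).trans ?_
      rw [norm_mul (a x) (b x)]
      apply div_le_div_of_nonneg_right _ (by positivity)
      linarith [hh x]
    refine ⟨hpos, hw2, hw2.trans ?_⟩
    rw [div_le_iff₀ (by positivity)]
    linarith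
  -- extend
  obtain ⟨ω, hω1, hω2, hω3⟩ := exists_extension_cozero hdim (fun x => ‖h x‖) h.continuous.norm
    (F₁ ∪ F₂ ∪ F₃) f
    (fun r _ => ((hF₁.union hF₂).union hF₃).inter (isClosed_le continuous_const h.continuous.norm))
    (by
      intro r hr
      have hK : IsClosed {x | r ≤ ‖h x‖} := isClosed_le continuous_const h.continuous.norm
      have hKp : ∀ x ∈ {x | r ≤ ‖h x‖}, 0 < ‖h x‖ := fun x hx => lt_of_lt_of_le hr hx
      rw [union_inter_distrib_right, union_inter_distrib_right]
      apply ContinuousOn.union_of_isClosed _ _ ((hF₁.inter hK).union (hF₂.inter hK))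
        (hF₃.inter hK)
      · apply ContinuousOn.union_of_isClosed _ _ (hF₁.inter hK) (hF₂.inter hK)
        · apply (continuousOn_const (c := (1 : ℂ))).congr
          intro x hx
          exact hf_1 x hx.1 (hKp x hx.2)
        · have : ContinuousOn w (F₂ ∩ {x | r ≤ ‖h x‖}) := fun x hx =>
            (hwc x (hKp x hx.2)).continuousWithinAt
          apply this.congr
          intro x hx
          exact hf_2 x hx.1 (hKp x hx.2)
      · intro x hx
        have hpos := hKp x hx.2
        apply ContinuousAt.continuousWithinAt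
        apply Complex.continuous_exp.continuousAt.comp
        apply ContinuousAt.mul
        · apply Complex.continuous_ofReal.continuousAt.comp
          have : ContinuousAt (fun x => (t x + ‖b x‖ - ‖a x‖) / (2 * t x)) x := by
            apply ContinuousAt.div
            · exact ((htc.add b.continuous.norm).sub a.continuous.norm).continuousAt
            · exact (continuous_const.mul htc).continuousAt
            · have := htpos x hpos
              positivity
          exact continuousAt_const.max (continuousAt_const.min this)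
        · apply (hwc x hpos).clog
          left
          have h1 := (hF3 x hx.1).2.2
          have h2 := (abs_le.1 ((Complex.abs_re_le_norm (w x - 1)).trans h1)).1
          simp only [Complex.sub_re, Complex.one_re] at h2
          linarith)
    (fun x _ hpos => hf1 x hpos)
  have hω0 : ∀ x, ω x ≠ 0 := fun x h0 => by
    have := hω1 x; rw [h0, norm_zero] at this; norm_num at this
  -- estimate of ω on F₃
  have hωF3 : ∀ x ∈ F₃, ‖ω x - 1‖ ≤ 3 * ‖w x - 1‖ := by
    intro x hx
    obtain ⟨hpos, _, hhalf⟩ := hF3 x hx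
    rw [hω2 x (Or.inr hx) hpos]
    have h1 : ‖Complex.log (w x)‖ ≤ 3 / 2 * ‖w x - 1‖ := by
      have := Complex.norm_log_one_add_half_le_self hhalf
      rwa [add_sub_cancel] at this
    have hs : |s x| ≤ 1 := by
      have h2 : 0 ≤ s x := le_max_left _ _
      rw [abs_of_nonneg h2]
      exact max_le zero_le_one (min_le_left _ _)
    have h2 : ‖(s x : ℂ) * Complex.log (w x)‖ ≤ 3 / 2 * ‖w x - 1‖ := by
      rw [norm_mul, Complex.norm_real, Real.norm_eq_abs]
      calc |s x| * ‖Complex.log (w x)‖ ≤ 1 * ‖Complex.log (w x)‖ :=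
            mul_le_mul_of_nonneg_right hs (norm_nonneg _)
        _ ≤ _ := by rw [one_mul]; exact h1
    have h3 : ‖(s x : ℂ) * Complex.log (w x)‖ ≤ 1 := by linarith
    have h4 := Complex.norm_exp_sub_one_le h3
    show ‖Complex.exp (s x * Complex.log (w x)) - 1‖ ≤ _
    linarith
  -- definition of the factors
  let U : X → ℂ := fun x => if h x = 0 then u₀ x else u₀ x * ω x
  let V : X → ℂ := fun x => if h x = 0 then v₀ x else h x / (‖h x‖ * (u₀ x * ω x))
  have hU1 : ∀ x, ‖U x‖ = 1 := by
    intro x
    by_cases h0 : h x = 0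
    · simp only [U, h0, if_true, hu₀]
    · simp only [U, h0, if_false, norm_mul, hu₀, hω1, mul_one]
  have hV1 : ∀ x, ‖V x‖ = 1 := by
    intro x
    by_cases h0 : h x = 0
    · simp only [V, h0, if_true, hv₀]
    · have : ‖h x‖ ≠ 0 := norm_ne_zero_iff.2 h0
      simp only [V, h0, if_false, norm_div, norm_mul, hu₀, hω1, mul_one, Complex.norm_real,
        norm_norm]
      exact div_self this
  -- continuity where h ≠ 0
  have hUc : ∀ x, h x ≠ 0 → ContinuousAt U x := by
    intro x hx
    have hpos : 0 < ‖h x‖ := norm_pos_iff.2 hx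
    have hnear : ∀ᶠ y in 𝓝 x, h y ≠ 0 := h.continuous.continuousAt.eventually_ne hx
    apply (u₀.continuous.continuousAt.mul (hω3 x hpos)).congr
    filter_upwards [hnear] with y hy
    simp [U, hy]
  have hVc : ∀ x, h x ≠ 0 → ContinuousAt V x := by
    intro x hx
    have hpos : 0 < ‖h x‖ := norm_pos_iff.2 hx
    have hnear : ∀ᶠ y in 𝓝 x, h y ≠ 0 := h.continuous.continuousAt.eventually_ne hx
    have hcont : ContinuousAt (fun y => h y / (‖h y‖ * (u₀ y * ω y))) x := by
      apply h.continuous.continuousAt.div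
      · exact (Complex.continuous_ofReal.comp h.continuous.norm).continuousAt.mul
          (u₀.continuous.continuousAt.mul (hω3 x hpos))
      · refine mul_ne_zero ?_ (mul_ne_zero (hu₀0 x) (hω0 x))
        exact_mod_cast hpos.ne'
    apply hcont.congr
    filter_upwards [hnear] with y hy
    simp [V, hy]
  -- continuity of the products
  have hcontA : Continuous fun x => (α x : ℂ) * U x := by
    rw [continuous_iff_continuousAt]
    intro x
    by_cases hx : h x = 0
    · by_cases hαx : α x = 0
      · -- tends to zero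
        have h1 : (α x : ℂ) * U x = 0 := by rw [hαx]; simp
        show Filter.Tendsto (fun y => (α y : ℂ) * U y) (𝓝 x) (𝓝 ((α x : ℂ) * U x))
        rw [h1]
        apply squeeze_zero_norm (a := α)
        · intro y
          rw [norm_mul, hU1, mul_one, Complex.norm_real, Real.norm_of_nonneg (hα0 y)]
        · have := hαc.continuousAt (x := x)
          unfold ContinuousAt at this
          rwa [hαx] at this
      · -- u = u₀ near x
        have hpos : 0 < α x := lt_of_le_of_ne (hα0 x) (Ne.symm hαx)
        have hβx : β x = 0 := by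
          have := hαβ x
          rw [hx, norm_zero] at this
          exact (mul_eq_zero.1 this).resolve_left hαx
        have h2 : ‖b x‖ + t x < ‖a x‖ := by
          have h3 := hαsβ x
          have h4 : t x = 0 := by
            show min ‖h x‖ (η / 2) = 0
            rw [hx, norm_zero]
            exact min_eq_left (by positivity)
          rw [h4]
          linarith
        have hnear : ∀ᶠ y in 𝓝 x, ‖b y‖ + t y < ‖a y‖ :=
          (isOpen_lt (b.continuous.norm.add htc) a.continuous.norm).mem_nhds h2
        apply ((Complex.continuous_ofReal.comp hαc).continuousAt.mul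
          (u₀.continuous.continuousAt (x := x))).congr
        filter_upwards [hnear] with y hy
        by_cases hy0 : h y = 0
        · simp [U, hy0]
        · have hyp : 0 < ‖h y‖ := norm_pos_iff.2 hy0
          have : ω y = 1 := by
            rw [hω2 y (Or.inl (Or.inl hy.le)) hyp, hf_1 y hy.le hyp]
          simp [U, hy0, this]
    · exact (Complex.continuous_ofReal.comp hαc).continuousAt.mul (hUc x hx)
  have hcontB : Continuous fun x => (β x : ℂ) * V x := by
    rw [continuous_iff_continuousAt]
    intro x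
    by_cases hx : h x = 0
    · by_cases hβx : β x = 0
      · have h1 : (β x : ℂ) * V x = 0 := by rw [hβx]; simp
        show Filter.Tendsto (fun y => (β y : ℂ) * V y) (𝓝 x) (𝓝 ((β x : ℂ) * V x))
        rw [h1]
        apply squeeze_zero_norm (a := β)
        · intro y
          rw [norm_mul, hV1, mul_one, Complex.norm_real, Real.norm_of_nonneg (hβ0 y)]
        · have := hβc.continuousAt (x := x)
          unfold ContinuousAt at this
          rwa [hβx] at this
      · have hpos : 0 < β x := lt_of_le_of_ne (hβ0 x) (Ne.symm hβx)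
        have hαx : α x = 0 := by
          have := hαβ x
          rw [hx, norm_zero] at this
          exact (mul_eq_zero.1 this).resolve_right hβx
        have h2 : ‖a x‖ + t x < ‖b x‖ := by
          have h3 := hαsβ x
          have h4 : t x = 0 := by
            show min ‖h x‖ (η / 2) = 0
            rw [hx, norm_zero]
            exact min_eq_left (by positivity)
          rw [h4]
          linarith
        have hnear : ∀ᶠ y in 𝓝 x, ‖a y‖ + t y < ‖b y‖ :=
          (isOpen_lt (a.continuous.norm.add htc) b.continuous.norm).mem_nhds h2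
        apply ((Complex.continuous_ofReal.comp hβc).continuousAt.mul
          (v₀.continuous.continuousAt (x := x))).congr
        filter_upwards [hnear] with y hy
        by_cases hy0 : h y = 0
        · simp [V, hy0]
        · have hyp : 0 < ‖h y‖ := norm_pos_iff.2 hy0
          have hωy : ω y = w y := by
            rw [hω2 y (Or.inl (Or.inr hy.le)) hyp, hf_2 y hy.le hyp]
          have hyc : (‖h y‖ : ℂ) ≠ 0 := by exact_mod_cast hyp.ne'
          have := hu₀0 y
          have := hv₀0 y
          have hV : V y = v₀ y := by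
            simp only [V, hy0, if_false, hωy, w]
            field_simp
          simp [hV]
    · exact (Complex.continuous_ofReal.comp hβc).continuousAt.mul (hVc x hx)
  refine ⟨⟨_, hcontA⟩, ⟨_, hcontB⟩, fun x => ?_, fun x => ?_, fun x => ?_⟩
  · show (α x : ℂ) * U x * ((β x : ℂ) * V x) = h x
    have h1 : (α x : ℂ) * (β x : ℂ) = (‖h x‖ : ℂ) := by
      rw [← Complex.ofReal_mul, hαβ]
    by_cases hx : h x = 0
    · rw [hx, norm_zero] at h1
      calc (α x : ℂ) * U x * ((β x : ℂ) * V x) = ((α x : ℂ) * (β x : ℂ)) * (U x * V x) := by ring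
        _ = 0 := by rw [h1]; simp
        _ = h x := hx.symm
    · have hpos : (‖h x‖ : ℂ) ≠ 0 := by
        have := norm_ne_zero_iff.2 hx
        exact_mod_cast this
      have := hu₀0 x
      have := hω0 x
      calc (α x : ℂ) * U x * ((β x : ℂ) * V x) = ((α x : ℂ) * (β x : ℂ)) * (U x * V x) := by ring
        _ = ‖h x‖ * ((u₀ x * ω x) * (h x / (‖h x‖ * (u₀ x * ω x)))) := by
            rw [h1]; simp [U, V, hx]
        _ = h x := by field_simp
  · -- estimate for a'
    show ‖(α x : ℂ) * U x - a x‖ ≤ 3 * η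
    have hαa := (hest x).1
    by_cases hax : ‖a x‖ < η
    · calc ‖(α x : ℂ) * U x - a x‖ ≤ ‖(α x : ℂ) * U x‖ + ‖a x‖ := norm_sub_le _ _
        _ = α x + ‖a x‖ := by
            rw [norm_mul, hU1, mul_one, Complex.norm_real, Real.norm_of_nonneg (hα0 x)]
        _ ≤ 3 * η := by
            have := (abs_le.1 hαa).2
            linarith
    · push Not at hax
      have hau' := hau x (by linarith)
      have hkey : ‖(α x : ℂ) * U x - a x‖ ≤ |α x - ‖a x‖| + ‖a x‖ * ‖U x - u₀ x‖ := by
        have : (α x : ℂ) * U x - a x = ((α x - ‖a x‖ : ℝ) : ℂ) * U x + ‖a x‖ * (U x - u₀ x) := by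
          conv_lhs => rw [hau']
          push_cast; ring
        rw [this]
        refine (norm_add_le _ _).trans ?_
        rw [norm_mul, norm_mul, hU1, mul_one, Complex.norm_real, Complex.norm_real, norm_norm,
          Real.norm_eq_abs]
      have hU : ‖a x‖ * ‖U x - u₀ x‖ ≤ η := by
        by_cases hx : h x = 0
        · simp only [U, hx, if_true, sub_self, norm_zero, mul_zero]
          exact hη.le
        · have hpos : 0 < ‖h x‖ := norm_pos_iff.2 hx
          by_cases hbx : ‖b x‖ < η / 2
          · have hF : x ∈ F₁ := by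
              show ‖b x‖ + t x ≤ ‖a x‖
              have : t x ≤ η / 2 := min_le_right _ _
              linarith
            have : ω x = 1 := by
              rw [hω2 x (Or.inl (Or.inl hF)) hpos, hf_1 x hF hpos]
            simp only [U, hx, if_false, this, mul_one, sub_self, norm_zero, mul_zero]
            exact hη.le
          · push Not at hbx
            have hF : x ∈ F₃ := ⟨by show η / 2 ≤ ‖a x‖; linarith, hbx⟩
            have h1 : U x - u₀ x = u₀ x * (ω x - 1) := by
              simp only [U, hx, if_false]; ring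
            rw [h1, norm_mul, hu₀, one_mul]
            have h2 := hωF3 x hF
            have h3 := (hF3 x hF).2.1
            have ha0 : 0 < ‖a x‖ := by linarith
            have hb0 : 0 < ‖b x‖ := by linarith
            calc ‖a x‖ * ‖ω x - 1‖ ≤ ‖a x‖ * (3 * (2 * (η ^ 2 / 16) / (‖a x‖ * ‖b x‖))) := by
                  apply mul_le_mul_of_nonneg_left _ ha0.le
                  linarith
              _ = (3 * η ^ 2 / 8) / ‖b x‖ := by field_simp; ring
              _ ≤ η := by
                  rw [div_le_iff₀ hb0]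
                  nlinarith
      linarith [hkey, hU, hαa]
  · show ‖(β x : ℂ) * V x - b x‖ ≤ 3 * η
    have hβb := (hest x).2
    by_cases hbx : ‖b x‖ < η
    · calc ‖(β x : ℂ) * V x - b x‖ ≤ ‖(β x : ℂ) * V x‖ + ‖b x‖ := norm_sub_le _ _
        _ = β x + ‖b x‖ := by
            rw [norm_mul, hV1, mul_one, Complex.norm_real, Real.norm_of_nonneg (hβ0 x)]
        _ ≤ 3 * η := by
            have := (abs_le.1 hβb).2
            linarith
    · push Not at hbx
      have hbv' := hbv x (by linarith)
      have hkey : ‖(β x : ℂ) * V x - b x‖ ≤ |β x - ‖b x‖| + ‖b x‖ * ‖V x - v₀ x‖ := by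
        have : (β x : ℂ) * V x - b x = ((β x - ‖b x‖ : ℝ) : ℂ) * V x + ‖b x‖ * (V x - v₀ x) := by
          conv_lhs => rw [hbv']
          push_cast; ring
        rw [this]
        refine (norm_add_le _ _).trans ?_
        rw [norm_mul, norm_mul, hV1, mul_one, Complex.norm_real, Complex.norm_real, norm_norm,
          Real.norm_eq_abs]
      have hV : ‖b x‖ * ‖V x - v₀ x‖ ≤ η := by
        by_cases hx : h x = 0
        · simp only [V, hx, if_true, sub_self, norm_zero, mul_zero]
          exact hη.le
        · have hpos : 0 < ‖h x‖ := norm_pos_iff.2 hx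
          have hyc : (‖h x‖ : ℂ) ≠ 0 := by exact_mod_cast hpos.ne'
          have hu0 := hu₀0 x
          have hv0 := hv₀0 x
          by_cases hax : ‖a x‖ < η / 2
          · have hF : x ∈ F₂ := by
              show ‖a x‖ + t x ≤ ‖b x‖
              have : t x ≤ η / 2 := min_le_right _ _
              linarith
            have hωx : ω x = w x := by
              rw [hω2 x (Or.inl (Or.inr hF)) hpos, hf_2 x hF hpos]
            have hVx : V x = v₀ x := by
              simp only [V, hx, if_false, hωx, w]
              field_simp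
            rw [hVx, sub_self, norm_zero, mul_zero]
            exact hη.le
          · push Not at hax
            have hF : x ∈ F₃ := ⟨hax, by show η / 2 ≤ ‖b x‖; linarith⟩
            have hω0' := hω0 x
            have h1 : V x - v₀ x = v₀ x * (w x - ω x) / ω x := by
              simp only [V, hx, if_false, w]
              field_simp
            have h1' : ‖V x - v₀ x‖ = ‖w x - ω x‖ := by
              rw [h1, norm_div, norm_mul, hv₀, hω1, one_mul, div_one]
            have h1'' : ‖w x - ω x‖ ≤ ‖w x - 1‖ + ‖ω x - 1‖ := by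
              have : w x - ω x = (w x - 1) - (ω x - 1) := by ring
              rw [this]
              exact norm_sub_le _ _
            rw [h1']
            have h2 := hωF3 x hF
            have h3 := (hF3 x hF).2.1
            have ha0 : 0 < ‖a x‖ := by linarith
            have hb0 : 0 < ‖b x‖ := by linarith
            calc ‖b x‖ * ‖w x - ω x‖ ≤ ‖b x‖ * (4 * (2 * (η ^ 2 / 16) / (‖a x‖ * ‖b x‖))) := by
                  apply mul_le_mul_of_nonneg_left _ hb0.le
                  linarith
              _ = (η ^ 2 / 2) / ‖a x‖ := by field_simp; ring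
              _ ≤ η := by
                  rw [div_le_iff₀ ha0]
                  nlinarith
      linarith [hkey, hV, hβb]

end Pool.Agent.N796.OpenMul
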